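import Pool.Agent.Helper19.HN.Inp

/-! # HN: common lemmas -/

namespace Pool.Agent.Helper19.HN

open Ordinal Cardinal ZFSet Order Pool.Agent.Helper73.HODC Pool.Agent.Helper73.HM
open Pool.Agent.Helper73.HE Pool.Agent.Helper73.HU

/-! ### almost all -/

theorem AE_forallS {τ : Ordinal.{0}} (hτ : ℵ₀ < τ.cof) {ι : Type} (hι : Cardinal.mk ι < τ.cof)
    {A : Set Ordinal.{0}} {Q : ι → Ordinal.{0} → Prop} (h : ∀ k, AE τ A (Q k)) :
    AE τ A (fun i => ∀ k, Q k i) := by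
  choose C hC hC' using h
  exact ⟨⋂ k, C k, Club.iInter' hτ hι hC, fun i hi hiτ hiA k =>
    hC' k i (Set.mem_iInter.1 hi k) hiτ hiA⟩

theorem AE_biforall {c : Cardinal.{0}} (hc : c.IsRegular) (hc' : ℵ₀ < c) {j : Ordinal.{0}}
    (hj : j < c.ord) {A : Set Ordinal.{0}} {Q : Ordinal.{0} → Ordinal.{0} → Prop}
    (h : ∀ k < j, AE c.ord A (Q k)) : AE c.ord A (fun i => ∀ k < j, Q k i) := by
  have h1 : ∀ k, ∃ C, k < j → Club C c.ord ∧ ∀ i ∈ C, i < c.ord → i ∈ A → Q k i := by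
    intro k
    by_cases hk : k < j
    · obtain ⟨C, hC⟩ := h k hk
      exact ⟨C, fun _ => hC⟩
    · exact ⟨∅, fun h => absurd h hk⟩
  choose C hC using h1
  exact ⟨{a | ∀ k < j, a ∈ C k}, Club.biInter hc hc' hj fun k hk => (hC k hk).1,
    fun i hi hic hiA k hk => (hC k hk).2 i (hi k hk) hic hiA⟩

theorem AE_diag {c : Cardinal.{0}} (hc : c.IsRegular) (hc' : ℵ₀ < c) {A : Set Ordinal.{0}}
    {Q : Ordinal.{0} → Ordinal.{0} → Prop} (h : ∀ k < c.ord, AE c.ord A (Q k)) :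
    AE c.ord A (fun i => ∀ k < i, Q k i) := by
  have h1 : ∀ k, ∃ C, k < c.ord → Club C c.ord ∧ ∀ i ∈ C, i < c.ord → i ∈ A → Q k i := by
    intro k
    by_cases hk : k < c.ord
    · obtain ⟨C, hC⟩ := h k hk
      exact ⟨C, fun _ => hC⟩
    · exact ⟨∅, fun h => absurd h hk⟩
  choose C hC using h1
  exact ⟨{a | ∀ k < a, a ∈ C k}, Club.diag hc hc' fun k hk => (hC k hk).1,
    fun i hi hic hiA k hk => (hC k (hk.trans hic)).2 i (hi k hk) hic hiA⟩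

theorem AE_diag2 {c : Cardinal.{0}} (hc : c.IsRegular) (hc' : ℵ₀ < c) {A : Set Ordinal.{0}}
    {Q : Ordinal.{0} → Ordinal.{0} → Ordinal.{0} → Prop}
    (h : ∀ k < c.ord, ∀ l < c.ord, AE c.ord A (Q k l)) :
    AE c.ord A (fun i => ∀ k < i, ∀ l < i, Q k l i) :=
  AE_diag hc hc' (Q := fun k i => ∀ l < i, Q k l i) fun k hk =>
    AE_diag hc hc' (Q := fun l i => Q k l i) fun l hl => h k hk l hl

theorem AE_lim {τ : Ordinal.{0}} (hτ : ℵ₀ < τ.cof) (A : Set Ordinal.{0}) :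
    AE τ A (fun i => IsSuccLimit i) := AE_of_club (club_limit hτ)

theorem AE_gt {τ : Ordinal.{0}} (hτ : ℵ₀ < τ.cof) (A : Set Ordinal.{0}) {b : Ordinal.{0}}
    (hb : b < τ) : AE τ A (fun i => b < i) := AE_of_club (club_Ioi (isSuccLimit_of_cof hτ) hb)

theorem AE_sub {τ : Ordinal.{0}} {A B : Set Ordinal.{0}} {Q : Ordinal.{0} → Prop}
    (h : AE τ A Q) (hB : ∀ a ∈ B, a ∈ A) : AE τ B Q := by
  obtain ⟨C, hC, h⟩ := h
  exact ⟨C, hC, fun i hi hiτ hiB => h i hi hiτ (hB i hiB)⟩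

/-- a property of almost all elements of `A` holds at the points of a stationary subset -/
theorem stat_AE {τ : Ordinal.{0}} (hτ : ℵ₀ < τ.cof) {A S : Set Ordinal.{0}}
    {Q : Ordinal.{0} → Prop} (hS : Stat S τ) (hSA : ∀ a ∈ S, a ∈ A) (h : AE τ A Q) :
    Stat {a | a ∈ S ∧ Q a} τ := (AE_sub h hSA).stat hτ hS

theorem stat_AE_exists {τ : Ordinal.{0}} (hτ : ℵ₀ < τ.cof) {A S : Set Ordinal.{0}}
    {Q : Ordinal.{0} → Prop} (hS : Stat S τ) (hSA : ∀ a ∈ S, a ∈ A) (h : AE τ A Q) :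
    ∃ a ∈ S, a < τ ∧ Q a := (AE_sub h hSA).exists hτ hS

/-- limit points of a club form a club -/
theorem club_lim {τ : Ordinal.{0}} (hτ : ℵ₀ < τ.cof) {C : Set Ordinal.{0}} (hC : Club C τ) :
    Club {a | a ≠ 0 ∧ UnbIn C a} τ := by
  refine ⟨fun a ha => ?_, fun a ha ha0 hu => ⟨ha0, fun b hb => ?_⟩⟩
  · have hch : ∀ x : Ordinal.{0}, ∃ y, x < τ → y ∈ C ∧ x < y ∧ y < τ := by
      intro x
      by_cases hx : x < τ
      · obtain ⟨y, hy1, hy2, hy3⟩ := hC.1 x hx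
        exact ⟨y, fun _ => ⟨hy1, hy2, hy3⟩⟩
      · exact ⟨0, fun h' => absurd h' hx⟩
    choose f hf using hch
    obtain ⟨s, has, hsτ, -, hs⟩ := exists_lim hτ f (fun x hx => (hf x hx).2) a ha
    refine ⟨s, ⟨(lt_of_le_of_lt zero_le has).ne', fun b hb => ?_⟩, has, hsτ⟩
    obtain ⟨x, hbx, hxτ, hxs⟩ := hs b hb
    exact ⟨f x, (hf x hxτ).1, hbx.trans (hf x hxτ).2.1, hxs⟩
  · obtain ⟨x, hx, hbx, hxa⟩ := hu b hb
    obtain ⟨y, hy, hby, hyx⟩ := hx.2 b hbx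
    exact ⟨y, hy, hby, hyx.trans hxa⟩

/-- a club of `τ` is a club of its limit points -/
theorem club_at {τ ρ : Ordinal.{0}} {C : Set Ordinal.{0}} (hC : Club C τ) (hρ : ρ < τ)
    (hu : UnbIn C ρ) : Club C ρ := ⟨hu, fun a ha ha0 h => hC.2 a (ha.trans hρ) ha0 h⟩

theorem AE_refl {τ : Ordinal.{0}} (hτ : ℵ₀ < τ.cof) {A : Set Ordinal.{0}}
    {Q : Ordinal.{0} → Prop} (h : AE τ A Q) :
    ∃ C, Club C τ ∧ ∀ ρ ∈ C, ρ < τ → AE ρ A Q := by
  obtain ⟨C, hC, h⟩ := h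
  exact ⟨_, club_lim hτ hC, fun ρ hρ hρτ => ⟨C, club_at hC hρτ hρ.2,
    fun i hi hiρ hiA => h i hi (hiρ.trans hρτ) hiA⟩⟩

theorem AE_refl_diag {c : Cardinal.{0}} (hc : c.IsRegular) (hc' : ℵ₀ < c) {A : Set Ordinal.{0}}
    {Q : Ordinal.{0} → Ordinal.{0} → Prop} (h : ∀ k < c.ord, AE c.ord A (Q k)) :
    ∃ C, Club C c.ord ∧ ∀ ρ ∈ C, ρ < c.ord → ∀ k < ρ, AE ρ A (Q k) := by
  have hτ : ℵ₀ < c.ord.cof := reg_cof hc hc'
  have h1 : ∀ k, ∃ C, k < c.ord → Club C c.ord ∧ ∀ ρ ∈ C, ρ < c.ord → AE ρ A (Q k) := by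
    intro k
    by_cases hk : k < c.ord
    · obtain ⟨C, hC⟩ := AE_refl hτ (h k hk)
      exact ⟨C, fun _ => hC⟩
    · exact ⟨∅, fun h => absurd h hk⟩
  choose C hC using h1
  exact ⟨{a | ∀ k < a, a ∈ C k}, Club.diag hc hc' fun k hk => (hC k hk).1,
    fun ρ hρ hρc k hk => (hC k (hk.trans hρc)).2 ρ (hρ k hk) hρc⟩

/-- one of fewer than `cof τ` pieces of a stationary set is stationary -/
theorem stat_few {τ j : Ordinal.{0}} (hτ : ℵ₀ < τ.cof) (hj : j.card < τ.cof)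
    {S : Set Ordinal.{0}} {F : Ordinal.{0} → Set Ordinal.{0}} (hS : Stat S τ)
    (h : ∀ i ∈ S, i < τ → ∃ k < j, i ∈ F k) : ∃ k < j, Stat {i | i ∈ S ∧ i ∈ F k} τ := by
  classical
  have h1 : ∀ i, ∃ k, i ∈ S → i < τ → k < j ∧ i ∈ F k := by
    intro i
    by_cases hi : i ∈ S ∧ i < τ
    · obtain ⟨k, hk⟩ := h i hi.1 hi.2
      exact ⟨k, fun _ _ => hk⟩
    · exact ⟨0, fun h1 h2 => absurd ⟨h1, h2⟩ hi⟩
  choose g hg using h1
  obtain ⟨y, hy⟩ := Inp.pg τ (Option j.ToType) S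
    (fun i => if h : g i < j then some (ToType.mk ⟨g i, h⟩) else none) hτ (by
      rw [Cardinal.mk_option, mk_toType]
      exact Cardinal.add_lt_of_lt hτ.le hj (Cardinal.one_lt_aleph0.trans hτ)) hS
  obtain ⟨a, ⟨haS, hay⟩, -, haτ⟩ := hy _ (club_univ (isSuccLimit_of_cof hτ))
  obtain ⟨ha1, ha2⟩ := hg a haS haτ
  refine ⟨g a, ha1, hy.mono fun i hi hiτ => ⟨hi.1, ?_⟩⟩
  obtain ⟨hi1, hi2⟩ := hg i hi.1 hiτ
  have h2 := hi.2.trans hay.symm
  simp only [dif_pos hi1, dif_pos ha1] at h2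
  have h3 := congrArg Subtype.val (ToType.mk.injective (Option.some.inj h2))
  have h4 : g i = g a := h3
  rw [← h4]
  exact hi2

/-- atoms decide definable properties -/
theorem Atm.dec {τ : Ordinal.{0}} {A : Set Ordinal.{0}} (hA : Atm τ A)
    {Q : Ordinal.{0} → Prop} (hQ : DP (fun v => Q (v 0).rank)) :
    AE τ A Q ∨ AE τ A (fun i => ¬ Q i) := by
  by_contra hcon
  push Not at hcon
  obtain ⟨h1, h2⟩ := hcon
  rw [AE_iff, not_not] at h1 h2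
  refine hA.atom.2 (ordSet τ {a | Q a}) (od_ordSet hQ τ) (ordSet_sub _ _) ⟨?_, ?_⟩
  · refine h2.mono fun a ha haτ => ⟨ha.1, ?_⟩
    rw [mem_st_ordSet]
    exact ⟨haτ, not_not.1 ha.2⟩
  · refine h1.mono fun a ha haτ => ⟨ha.1, ?_⟩
    rw [mem_st_ordSet]
    exact fun h => ha.2 h.2

theorem Atm.stat {τ : Ordinal.{0}} {A : Set Ordinal.{0}} (hA : Atm τ A) : Stat A τ := hA.atom.1

theorem Atm.exists {τ : Ordinal.{0}} {A : Set Ordinal.{0}} (hA : Atm τ A)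
    {Q : Ordinal.{0} → Prop} (h : AE τ A Q) : ∃ a ∈ A, a < τ ∧ Q a := h.exists hA.cof hA.stat

/-- the negation of an almost-all statement for a definable property -/
theorem Atm.not_AE {τ : Ordinal.{0}} {A : Set Ordinal.{0}} (hA : Atm τ A)
    {Q : Ordinal.{0} → Prop} (hQ : DP (fun v => Q (v 0).rank)) :
    ¬ AE τ A Q ↔ AE τ A (fun i => ¬ Q i) := by
  constructor
  · intro h
    exact (hA.dec hQ).resolve_left h
  · intro h h'
    exact h'.not_not hA.cof hA.stat h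

/-! ### cuts -/

theorem mem_cut {x z : ZFSet.{0}} {g : Ordinal.{0}} : z ∈ cut x g ↔ z ∈ x ∧ z.rank < g :=
  ZFSet.mem_sep

theorem st_cut {x : ZFSet.{0}} {g a : Ordinal.{0}} : a ∈ st (cut x g) ↔ a ∈ st x ∧ a < g := by
  constructor
  · rintro ⟨z, hz, rfl⟩
    rw [mem_cut] at hz
    exact ⟨⟨z, hz.1, rfl⟩, hz.2⟩
  · rintro ⟨⟨z, hz, rfl⟩, h⟩
    exact ⟨z, mem_cut.2 ⟨hz, h⟩, rfl⟩

theorem cut_cut {x : ZFSet.{0}} {g h : Ordinal.{0}} (hg : h ≤ g) : cut (cut x g) h = cut x h := by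
  ext z
  rw [mem_cut, mem_cut, mem_cut]
  exact ⟨fun h1 => ⟨h1.1.1, h1.2⟩, fun h1 => ⟨⟨h1.1, h1.2.trans_le hg⟩, h1.2⟩⟩

theorem hodPow_mono {x : ZFSet.{0}} {g h : Ordinal.{0}} (hg : g ≤ h) (hx : x ∈ hodPow g) :
    x ∈ hodPow h := by
  rw [mem_hodPow] at hx ⊢
  refine ⟨fun z hz => ?_, hx.2⟩
  obtain ⟨b, hb, rfl⟩ := mem_toZFSet_iff.1 (hx.1 hz)
  exact mem_toZFSet_iff.2 ⟨b, hb.trans_le hg, rfl⟩

theorem HOD_of_mem {x : ZFSet.{0}} {g : Ordinal.{0}} (hx : x ∈ hodPow g) : HOD x :=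
  hod_of_sub (mem_hodPow.1 hx).1 (mem_hodPow.1 hx).2

theorem cut_of_mem {x : ZFSet.{0}} {g h : Ordinal.{0}} (hx : x ∈ hodPow g) (hg : g ≤ h) :
    cut x h = x := by
  ext z
  rw [mem_cut]
  refine ⟨fun h => h.1, fun hz => ⟨hz, ?_⟩⟩
  obtain ⟨b, hb, rfl⟩ := mem_toZFSet_iff.1 ((mem_hodPow.1 hx).1 hz)
  rw [rank_toZFSet]
  exact hb.trans_le hg

theorem dp_cut (i j k : ℕ) : DP (fun v => v k = cut (v i) (v j).rank) := by
  refine (DP.all (Q := fun z v => z ∈ v k ↔ (z ∈ v i ∧ z.rank < (v j).rank)) ?_).congr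
    fun v => ?_
  · exact (DP.mem 0 (k + 1)).iff ((DP.mem 0 (i + 1)).and (DP.rank_lt 0 (j + 1)))
  · constructor
    · intro h z
      rw [h, mem_cut]
    · intro h
      ext z
      rw [h z, mem_cut]

theorem HOD_cut {x : ZFSet.{0}} (hx : HOD x) (g : Ordinal.{0}) : HOD (cut x g) := by
  refine HOD.intro _ (DP.od ?_) fun z hz => ?_
  · have h1 : DP (fun v => v 0 = cut x (v 1).rank) :=
      dp_subst_HOD (Q := fun x v => v 0 = cut x (v 1).rank) (dp_cut 0 2 1) hx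
    exact dp_subst_at (Q := fun g v => v 0 = cut x g)
      (h1.rename (fun n => if n = 0 then 1 else 0)) g
  · obtain ⟨_, -, h⟩ := hx
    exact h z (mem_cut.1 hz).1

theorem cut_mem {x : ZFSet.{0}} {τ : Ordinal.{0}} (hx : x ∈ hodPow τ) (g : Ordinal.{0}) :
    cut x g ∈ hodPow g := by
  rw [mem_hodPow]
  refine ⟨fun z hz => ?_, HOD.od (HOD_cut (HOD_of_mem hx) g)⟩
  rw [mem_cut] at hz
  obtain ⟨b, hb, rfl⟩ := mem_toZFSet_iff.1 ((mem_hodPow.1 hx).1 hz.1)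
  rw [rank_toZFSet] at hz
  exact mem_toZFSet_iff.2 ⟨b, hz.2, rfl⟩

theorem st_lt {x : ZFSet.{0}} {g a : Ordinal.{0}} (hx : x ∈ hodPow g) (ha : a ∈ st x) : a < g :=
  lt_of_mem_st (mem_hodPow.1 hx).1 ha

theorem ext_hodPow {x y : ZFSet.{0}} {g : Ordinal.{0}} (hx : x ∈ hodPow g) (hy : y ∈ hodPow g)
    (h : ∀ a < g, a ∈ st x ↔ a ∈ st y) : x = y := by
  refine ext_st (mem_hodPow.1 hx).1 (mem_hodPow.1 hy).1 fun a => ?_
  by_cases ha : a < g
  · exact h a ha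
  · exact ⟨fun h' => absurd (st_lt hx h') ha, fun h' => absurd (st_lt hy h') ha⟩

theorem cut_ext {x y : ZFSet.{0}} {σ τ g : Ordinal.{0}} (hx : x ∈ hodPow τ) (hy : y ∈ hodPow σ)
    (h : ∀ a < g, a ∈ st x ↔ a ∈ st y) : cut x g = cut y g := by
  refine ext_hodPow (cut_mem hx g) (cut_mem hy g) fun a ha => ?_
  rw [st_cut, st_cut, h a ha]

/-- two different elements of `hodPow τ` have different cuts from some point on -/
theorem exists_diff {x y : ZFSet.{0}} {τ : Ordinal.{0}} (hx : x ∈ hodPow τ) (hy : y ∈ hodPow τ)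
    (h : x ≠ y) : ∃ d < τ, ∀ g, d < g → cut x g ≠ cut y g := by
  by_contra hcon
  push Not at hcon
  refine h (ext_hodPow hx hy fun a ha => ?_)
  obtain ⟨g, hg, h1⟩ := hcon a ha
  have h2 : a ∈ st (cut x g) ↔ a ∈ st (cut y g) := by rw [h1]
  rw [st_cut, st_cut] at h2
  exact ⟨fun h3 => (h2.1 ⟨h3, hg⟩).1, fun h3 => (h2.2 ⟨h3, hg⟩).1⟩

/-! ### the canonical order -/

theorem less_irrefl (x : ZFSet.{0}) : ¬ Less x x := by
  rintro (h | ⟨-, h | ⟨-, h⟩⟩)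
  · exact lt_irrefl _ h
  · exact lt_irrefl _ h
  · exact Pool.Agent.Helper14.HM.lexLt_irrefl x h

theorem less_trans {x y z : ZFSet.{0}} (h : Less x y) (h' : Less y z) : Less x z := by
  rcases h with h | ⟨e1, h | ⟨e2, h⟩⟩
  · rcases h' with h' | ⟨e1', -⟩
    · exact Or.inl (h.trans h')
    · exact Or.inl (by rw [← e1']; exact h)
  · rcases h' with h' | ⟨e1', h' | ⟨e2', -⟩⟩
    · exact Or.inl (by rw [e1]; exact h')
    · exact Or.inr ⟨e1.trans e1', Or.inl (h.trans h')⟩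
    · exact Or.inr ⟨e1.trans e1', Or.inl (by rw [← e2']; exact h)⟩
  · rcases h' with h' | ⟨e1', h' | ⟨e2', h'⟩⟩
    · exact Or.inl (by rw [e1]; exact h')
    · exact Or.inr ⟨e1.trans e1', Or.inl (by rw [e2]; exact h')⟩
    · exact Or.inr ⟨e1.trans e1', Or.inr ⟨e2.trans e2', Pool.Agent.Helper14.HM.lexLt_trans h h'⟩⟩

theorem less_tri {x y : ZFSet.{0}} {g : Ordinal.{0}} (hx : x ∈ hodPow g) (hy : y ∈ hodPow g) :
    Less x y ∨ x = y ∨ Less y x := by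
  rcases lt_trichotomy (key1 x) (key1 y) with h | h | h
  · exact Or.inl (Or.inl h)
  · rcases lt_trichotomy (key2 x) (key2 y) with h' | h' | h'
    · exact Or.inl (Or.inr ⟨h, Or.inl h'⟩)
    · by_cases h1 : LexLt x y
      · exact Or.inl (Or.inr ⟨h, Or.inr ⟨h', h1⟩⟩)
      · by_cases h2 : LexLt y x
        · exact Or.inr (Or.inr (Or.inr ⟨h.symm, Or.inr ⟨h'.symm, h2⟩⟩))
        · exact Or.inr (Or.inl (ext_hodPow hx hy fun a _ =>
            Pool.Agent.Helper14.HM.eq_of_not_lexLt h1 h2 a))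
    · exact Or.inr (Or.inr (Or.inr ⟨h.symm, Or.inl h'⟩))
  · exact Or.inr (Or.inr (Or.inl h))

theorem lt_irr {g : Ordinal.{0}} {y : ZFSet.{0}} : ¬ lt g y y := fun h =>
  less_irrefl y (h.2 h.1)

theorem lt_tr {g : Ordinal.{0}} {x y z : ZFSet.{0}} (h : lt g x y) (h' : lt g y z) : lt g x z :=
  ⟨h.1, fun hz => less_trans (h.2 h'.1) (h'.2 hz)⟩

theorem lt_tri {g : Ordinal.{0}} {q y : ZFSet.{0}} (hq : q ∈ hodPow g) :
    lt g q y ∨ q = y ∨ lt g y q := by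
  by_cases hy : y ∈ hodPow g
  · rcases less_tri hq hy with h | h | h
    · exact Or.inl ⟨hq, fun _ => h⟩
    · exact Or.inr (Or.inl h)
    · exact Or.inr (Or.inr ⟨hy, fun _ => h⟩)
  · exact Or.inl ⟨hq, fun h => absurd h hy⟩

theorem lt_min {g : Ordinal.{0}} {Q : ZFSet.{0} → Prop} (h : ∃ y ∈ hodPow g, Q y) :
    ∃ y ∈ hodPow g, Q y ∧ ∀ y', lt g y' y → ¬ Q y' := by
  obtain ⟨y, hy, hQ⟩ := h
  obtain ⟨x, ⟨hx1, hx2, hx3⟩, hx4⟩ := Inp.le.2 g Q ⟨y, (mem_hodPow.1 hy).2, (mem_hodPow.1 hy).1, hQ⟩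
  have hx : x ∈ hodPow g := mem_hodPow.2 ⟨hx2, hx1⟩
  refine ⟨x, hx, hx3, fun y' hy' hQ' => ?_⟩
  exact hx4 y' (mem_hodPow.1 hy'.1).2 (mem_hodPow.1 hy'.1).1 hQ' (hy'.2 hx)

theorem succ_not_mem (g : Ordinal.{0}) : (Order.succ g).toZFSet ∉ hodPow g := by
  intro h
  have h1 := (mem_hodPow.1 h).1 (mem_toZFSet_iff.2 ⟨g, Order.lt_succ g, rfl⟩)
  obtain ⟨b, hb, h2⟩ := mem_toZFSet_iff.1 h1
  have h3 := congrArg rank h2
  rw [rank_toZFSet, rank_toZFSet] at h3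
  rw [h3] at hb
  exact lt_irrefl _ hb

theorem lt_vv {τ g : Ordinal.{0}} {z w : ZFSet.{0}} : lt g w (vv τ z g) ↔
    w ∈ hodPow g ∧ (z ∈ hodPow τ → Less w (cut z g)) := by
  unfold vv lt
  by_cases hz : z ∈ hodPow τ
  · rw [if_pos hz]
    exact ⟨fun h => ⟨h.1, fun _ => h.2 (cut_mem hz g)⟩, fun h => ⟨h.1, fun _ => h.2 hz⟩⟩
  · rw [if_neg hz]
    exact ⟨fun h => ⟨h.1, fun h' => absurd h' hz⟩, fun h => ⟨h.1, fun h' =>
      absurd h' (succ_not_mem g)⟩⟩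

/-! ### definability -/

theorem dp_hodPow (i j : ℕ) : DP (fun v => v i ∈ hodPow (v j).rank) := DP.of (Inp.hp.2 i j)

theorem dp_less (i j : ℕ) : DP (fun v => Less (v i) (v j)) := DP.of (Inp.ls i j)

theorem dp_lt (i j k : ℕ) : DP (fun v => lt (v i).rank (v j) (v k)) :=
  (dp_hodPow j i).and ((dp_hodPow k i).imp (dp_less j k))

theorem dp_lessCut (i j k : ℕ) :
    DP (fun v => Less (cut (v i) (v k).rank) (cut (v j) (v k).rank)) := by
  refine (DP.ex (Q := fun x v => x = cut (v i) (v k).rank ∧ ∃ y, y = cut (v j) (v k).rank ∧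
    Less x y) ?_).congr fun v => ?_
  · refine (dp_cut (i + 1) (k + 1) 0).and ?_
    refine DP.ex (Q := fun y v => y = cut (v (j + 1)) (v (k + 1)).rank ∧ Less (v 0) y) ?_
    exact (dp_cut (j + 2) (k + 2) 0).and (dp_less 1 0)
  · constructor
    · intro h
      exact ⟨_, rfl, _, rfl, h⟩
    · rintro ⟨_, rfl, _, rfl, h⟩
      exact h

/-- the quantifier for almost all elements is definable -/
theorem dp_AE {A : Set Ordinal.{0}} (hA : DPs A) {Q : Ordinal.{0} → (ℕ → ZFSet.{0}) → Prop}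
    (hQ : DP (fun v => Q (v 0).rank (fun n => v (n + 1)))) (j : ℕ) :
    DP (fun v => AE (v j).rank A (fun a => Q a v)) := by
  have h1 : DP (fun v => Stat {a | a ∈ A ∧ ¬ Q a v} (v j).rank) :=
    DP.statV (Q := fun a v => a ∈ A ∧ ¬ Q a v) ((DPs.at hA 0).and hQ.not) j
  exact h1.not.congr fun v => AE_iff

/-- stationarity in a fixed ordinal -/
theorem dp_stat {Q : Ordinal.{0} → (ℕ → ZFSet.{0}) → Prop}
    (hQ : DP (fun v => Q (v 0).rank (fun n => v (n + 1)))) (τ : Ordinal.{0}) :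
    DP (fun v => Stat {a | Q a v} τ) := DP.statC hQ τ

theorem dp_AEc {A : Set Ordinal.{0}} (hA : DPs A) {Q : Ordinal.{0} → (ℕ → ZFSet.{0}) → Prop}
    (hQ : DP (fun v => Q (v 0).rank (fun n => v (n + 1)))) (τ : Ordinal.{0}) :
    DP (fun v => AE τ A (fun a => Q a v)) := by
  have h1 : DP (fun v => Stat {a | a ∈ A ∧ ¬ Q a v} τ) :=
    dp_stat (Q := fun a v => a ∈ A ∧ ¬ Q a v) ((DPs.at hA 0).and hQ.not) τ
  exact h1.not.congr fun v => AE_iff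

theorem dp_prec {A : Set Ordinal.{0}} (hA : DPs A) (τ : Ordinal.{0}) (i j : ℕ) :
    DP (fun v => Prec τ A (v i) (v j)) :=
  dp_AEc (Q := fun a v => Less (cut (v i) a) (cut (v j) a)) hA (dp_lessCut (i + 1) (j + 1) 0) τ

/-- substitution of a set in HOD for the variable `0` -/
theorem dp_subst {Q : ZFSet.{0} → (ℕ → ZFSet.{0}) → Prop} {x : ZFSet.{0}} (hx : HOD x)
    (h : DP (fun v => Q (v 0) (fun n => v (n + 1)))) : DP (fun v => Q x v) := dp_subst_HOD h hx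

theorem dp_hodPowC (τ : Ordinal.{0}) (i : ℕ) : DP (fun v => v i ∈ hodPow τ) :=
  dp_subst_at (Q := fun τ v => v i ∈ hodPow τ) (dp_hodPow (i + 1) 0) τ

theorem dp_Kz {A : Set Ordinal.{0}} (hA : DPs A) (τ : Ordinal.{0}) {z : ZFSet.{0}} (hz : HOD z)
    (i : ℕ) : DP (fun v => Kz τ A z (v i)) := by
  refine (dp_hodPowC τ i).and (DP.imp (DP.const _) ?_)
  exact dp_subst (Q := fun z v => Prec τ A (v i) z) hz (dp_prec hA τ (i + 1) 0)

/-- the property in the definition of `EE'` -/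
theorem dp_ltvv (c : Ordinal.{0}) {z : ZFSet.{0}} (hz : HOD z) (i j : ℕ) :
    DP (fun v => lt (v i).rank (v j) (vv c z (v i).rank)) := by
  refine DP.congr (Q := fun v => v j ∈ hodPow (v i).rank ∧
    (z ∈ hodPow c → Less (v j) (cut z (v i).rank))) ?_ fun v => lt_vv
  refine (dp_hodPow j i).and (DP.imp (DP.const _) ?_)
  refine DP.congr (Q := fun v => ∃ x, x = cut z (v i).rank ∧ Less (v j) x) ?_ fun v => by simp
  refine DP.ex (Q := fun x v => x = cut z (v i).rank ∧ Less (v j) x) (DP.and ?_ (dp_less (j + 1) 0))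
  exact dp_subst (Q := fun z v => v 0 = cut z (v (i + 1)).rank) hz (dp_cut 0 (i + 2) 1)

/-! ### the order of the ultrapower -/

theorem Prec.mem_dec {τ : Ordinal.{0}} {A : Set Ordinal.{0}} (hA : Atm τ A) {x y : ZFSet.{0}}
    (hx : x ∈ hodPow τ) (hy : y ∈ hodPow τ) :
    Prec τ A x y ∨ AE τ A (fun g => ¬ Less (cut x g) (cut y g)) := by
  refine hA.dec (Q := fun g => Less (cut x g) (cut y g)) ?_
  have h1 : DP (fun v => Less (cut x (v 0).rank) (cut (v 1) (v 0).rank)) :=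
    dp_subst (Q := fun x v => Less (cut x (v 0).rank) (cut (v 1) (v 0).rank)) (HOD_of_mem hx)
      (dp_lessCut 0 2 1)
  exact dp_subst (Q := fun y v => Less (cut x (v 0).rank) (cut y (v 0).rank)) (HOD_of_mem hy)
    (h1.rename (fun n => if n = 0 then 1 else if n = 1 then 0 else n))

theorem Prec.tri {τ : Ordinal.{0}} {A : Set Ordinal.{0}} (hA : Atm τ A) {x y : ZFSet.{0}}
    (hx : x ∈ hodPow τ) (hy : y ∈ hodPow τ) : Prec τ A x y ∨ x = y ∨ Prec τ A y x := by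
  by_cases hxy : x = y
  · exact Or.inr (Or.inl hxy)
  rcases Prec.mem_dec hA hx hy with h | h
  · exact Or.inl h
  rcases Prec.mem_dec hA hy hx with h' | h'
  · exact Or.inr (Or.inr h')
  exfalso
  obtain ⟨d, hd, hd'⟩ := exists_diff hx hy hxy
  obtain ⟨a, -, -, ⟨h1, h2⟩, h3⟩ := hA.exists ((h.and hA.cof h').and hA.cof (AE_gt hA.cof A hd))
  rcases less_tri (cut_mem hx a) (cut_mem hy a) with h4 | h4 | h4
  · exact h1 h4
  · exact hd' a h3 h4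
  · exact h2 h4

theorem Prec.irr {τ : Ordinal.{0}} {A : Set Ordinal.{0}} (hA : Atm τ A) {x : ZFSet.{0}} :
    ¬ Prec τ A x x := by
  intro h
  obtain ⟨a, -, -, h1⟩ := hA.exists h
  exact less_irrefl _ h1

theorem Prec.tr {τ : Ordinal.{0}} {A : Set Ordinal.{0}} (hA : Atm τ A) {x y z : ZFSet.{0}}
    (h : Prec τ A x y) (h' : Prec τ A y z) : Prec τ A x z :=
  (h.and hA.cof h').mono fun _ _ _ h1 => less_trans h1.1 h1.2

/-! ### HOD is definable -/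

theorem HOD_elem {x y : ZFSet.{0}} (hx : HOD x) (hy : y ∈ x) : HOD y := by
  obtain ⟨_, -, h⟩ := hx
  exact h y hy

theorem hod_iff {x : ZFSet.{0}} :
    HOD x ↔ ∃ t : ZFSet.{0}, x ∈ t ∧ t.IsTransitive ∧ ∀ y, y ∈ t → OD y := by
  constructor
  · intro h
    refine ⟨ZFSet.sep HOD (V_ (Order.succ x.rank)), ?_, ?_, ?_⟩
    · rw [ZFSet.mem_sep]
      exact ⟨mem_vonNeumann.2 (Order.lt_succ _), h⟩
    · intro y hy z hz
      rw [ZFSet.mem_sep] at hy ⊢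
      exact ⟨mem_vonNeumann.2 ((rank_lt_of_mem hz).trans (mem_vonNeumann.1 hy.1)),
        HOD_elem hy.2 hz⟩
    · intro y hy
      rw [ZFSet.mem_sep] at hy
      exact HOD.od hy.2
  · rintro ⟨t, hx, ht, hod⟩
    have h : ∀ y : ZFSet.{0}, y ∈ t → HOD y := by
      intro y
      induction y using ZFSet.inductionOn with
      | _ y ih => exact fun hy => HOD.intro y (hod y hy) fun z hz => ih z hz (ht y hy hz)
    exact h x hx

theorem dfn_HOD (i : ℕ) : Dfn (fun v => HOD (v i)) := by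
  refine (Dfn.ex (Q := fun t v => v i ∈ t ∧ t.IsTransitive ∧ ∀ y, y ∈ t → OD y) ?_).congr
    fun v => hod_iff.symm
  refine (dfn_mem (i + 1) 0).and ((dfn_trans 0).and ?_)
  exact Dfn.all (Q := fun y v => y ∈ v 0 → OD y) ((dfn_mem 0 1).imp (Inp.hp.1 0))

end Pool.Agent.Helper19.HN
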