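import Pool.Agent.Helper19.HN.St
import Pool.Agent.Helper19.HN.Base

/-! # HN: module BND -/

namespace Pool.Agent.Helper19.HN.BND

open Ordinal Cardinal ZFSet Order Pool.Agent.Helper73.HODC Pool.Agent.Helper73.HM
open Pool.Agent.Helper73.HE Pool.Agent.Helper73.HU Pool.Agent.Helper19.HN

theorem bnd : StBND := by
  classical
  intro c D f hc hc'
  have hτ : ℵ₀ < c.ord.cof := reg_cof hc hc'
  have hlimc : IsSuccLimit c.ord := isSuccLimit_of_cof hτ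
  by_cases hA : ∃ ρ₀ < c.ord, ∀ d ∈ D, d < c.ord → ∃ k ∈ D, k < ρ₀ ∧ f d ≤ f k
  · obtain ⟨ρ₀, hρ₀, hA⟩ := hA
    by_cases hmax : ∃ k ∈ D, k < ρ₀ ∧ ∀ k' ∈ D, k' < ρ₀ → f k' ≤ f k
    · obtain ⟨k, hkD, hk, hmax⟩ := hmax
      refine ⟨0, {a | ρ₀ < a}, club_Ioi hlimc hρ₀, fun ρ hρ hρc _ _ S r hS hr => ?_⟩
      refine ⟨k, hk.trans hρ, hkD, hS.mono fun i hi hiρ => ⟨hi, ?_⟩⟩
      obtain ⟨h1, h2⟩ := hr i hi hiρ
      obtain ⟨k', h3, h4, h5⟩ := hA (r i) h2 (h1.trans (hiρ.trans hρc))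
      exact h5.trans (hmax k' h3 h4)
    · push Not at hmax
      -- the least upper bound
      have hbd : ∃ s, ∀ k ∈ D, k < ρ₀ → f k < s := by
        refine ⟨Order.succ (⨆ x : Set.Iio ρ₀, f x.1), fun k _ hk => ?_⟩
        exact Order.lt_succ_iff.2 (Ordinal.le_iSup (fun x : Set.Iio ρ₀ => f x.1) ⟨k, hk⟩)
      let s := sInf {s | ∀ k ∈ D, k < ρ₀ → f k < s}
      have hs : ∀ k ∈ D, k < ρ₀ → f k < s := csInf_mem (s := {s | ∀ k ∈ D, k < ρ₀ → f k < s}) hbd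
      have hs' : ∀ t < s, ∃ k ∈ D, k < ρ₀ ∧ t ≤ f k := by
        intro t ht
        by_contra hcon
        push Not at hcon
        exact absurd (csInf_le' (s := {s | ∀ k ∈ D, k < ρ₀ → f k < s}) hcon) (not_le.2 ht)
      refine ⟨s.cof, {a | ρ₀ < a}, club_Ioi hlimc hρ₀, fun ρ hρ hρc hρ0 hρs S r hS hr => ?_⟩
      have hne : ∃ k ∈ D, k < ρ₀ := by
        obtain ⟨a, haS, -, haρ⟩ := hS _ (club_univ (isSuccLimit_of_cof hρ0))
        obtain ⟨h1, h2⟩ := hr a haS haρ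
        obtain ⟨k', h3, h4, -⟩ := hA (r a) h2 (h1.trans (haρ.trans hρc))
        exact ⟨k', h3, h4⟩
      have hslim : IsSuccLimit s := by
        obtain ⟨k, hk, hk'⟩ := hne
        refine ⟨not_isMin_iff.2 ⟨f k, hs k hk hk'⟩, Order.isSuccPrelimit_of_succ_lt fun t ht => ?_⟩
        obtain ⟨k₁, h1, h2, h3⟩ := hs' t ht
        obtain ⟨k₂, h4, h5, h6⟩ := hmax k₁ h1 h2
        exact (Order.succ_le_of_lt (h3.trans_lt h6)).trans_lt (hs k₂ h4 h5)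
      obtain ⟨γ, hγ, hSt⟩ := Inp.pb ρ s S (fun i => f (r i)) hρ0 hslim hρs.symm hS fun i hi hiρ => by
        obtain ⟨h1, h2⟩ := hr i hi hiρ
        obtain ⟨k', h3, h4, h5⟩ := hA (r i) h2 (h1.trans (hiρ.trans hρc))
        exact h5.trans_lt (hs k' h3 h4)
      obtain ⟨k, hkD, hk, hk'⟩ := hs' γ hγ
      exact ⟨k, hk.trans hρ, hkD, hSt.mono fun i hi _ => ⟨hi.1, hi.2.trans hk'⟩⟩
  · push Not at hA
    choose! g hg using hA
    refine ⟨0, {a | ∀ b < a, g b < a}, Club.closure hc hc' g fun a ha => (hg a ha).2.1,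
      fun ρ hρ hρc hρ0 _ S r hS hr => ?_⟩
    obtain ⟨η, hη, hSt⟩ := Inp.fo ρ S r hρ0 hS fun a ha haρ _ => (hr a ha haρ).1
    have h1 : Order.succ η < ρ := (isSuccLimit_of_cof hρ0).succ_lt hη
    have h2 := hg (Order.succ η) (h1.trans hρc)
    refine ⟨g (Order.succ η), hρ _ h1, h2.1, hSt.mono fun i hi hiρ => ⟨hi.1, ?_⟩⟩
    exact (h2.2.2 (r i) (hr i hi.1 hiρ).2 (Order.lt_succ_of_le hi.2)).le

end Pool.Agent.Helper19.HN.BND
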