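import Pool.Agent.Helper19.HN.Notions

/-!
# Local non-rigidity of HOD.  Auxiliary definitions
-/

namespace Pool.Agent.Helper19.HN

open Ordinal Cardinal ZFSet Order Pool.Agent.Helper73.HODC Pool.Agent.Helper73.HM
open Pool.Agent.Helper73.HE Pool.Agent.Helper73.HU

/-! ### Auxiliary definitions -/

/-- `A` is definable from ordinals, and an atom -/
structure Atm (τ : Ordinal.{0}) (A : Set Ordinal.{0}) : Prop where
  cof : ℵ₀ < τ.cof
  dps : DPs A
  atom : Atom τ A

/-- `x` has fewer than `c` elements -/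
def Few (c : Ordinal.{0}) (x : ZFSet.{0}) : Prop :=
  ∃ j < c, ∃ e : Ordinal.{0} → ZFSet.{0}, ∀ y ∈ x, ∃ k < j, e k = y

/-- the order of `hodPow g`; the sets which are not in `hodPow g` are on top -/
def lt (g : Ordinal.{0}) (y y' : ZFSet.{0}) : Prop :=
  y ∈ hodPow g ∧ (y' ∈ hodPow g → Less y y')

open Classical in
/-- the value at `g` of the germ of `z`: infinity if `z` is not in `hodPow τ` -/
noncomputable def vv (τ : Ordinal.{0}) (z : ZFSet.{0}) (g : Ordinal.{0}) : ZFSet.{0} :=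
  if z ∈ hodPow τ then cut z g else (Order.succ g).toZFSet

/-- the order of the ultrapower by the atom `A` -/
def Prec (τ : Ordinal.{0}) (A : Set Ordinal.{0}) (x x' : ZFSet.{0}) : Prop :=
  AE τ A (fun g => Less (cut x g) (cut x' g))

/-- the initial segment of `hodPow τ` given by `z` (everything if `z` is not in `hodPow τ`) -/
def Kz (τ : Ordinal.{0}) (A : Set Ordinal.{0}) (z x : ZFSet.{0}) : Prop :=
  x ∈ hodPow τ ∧ (z ∈ hodPow τ → Prec τ A x z)

/-- `U` is a strict upper bound of `K` at almost all points of `A` -/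
def Ub (τ : Ordinal.{0}) (A : Set Ordinal.{0}) (K : ZFSet.{0} → Prop)
    (U : Ordinal.{0} → ZFSet.{0}) : Prop :=
  ∀ x, K x → AE τ A (fun g => lt g (cut x g) (U g))

/-- `U` is the least strict upper bound of `K` at almost all points of `A` -/
def Lub (τ : Ordinal.{0}) (A : Set Ordinal.{0}) (K : ZFSet.{0} → Prop)
    (U : Ordinal.{0} → ZFSet.{0}) : Prop :=
  Ub τ A K U ∧ ∀ U', Ub τ A K U' → AE τ A (fun g => ¬ lt g (U' g) (U g))

/-- `X k`, `k < c`, are all elements of `hodPow c` -/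
def Sur (c : Ordinal.{0}) (X : Ordinal.{0} → ZFSet.{0}) : Prop :=
  (∀ k < c, X k ∈ hodPow c) ∧ ∀ x ∈ hodPow c, ∃ k < c, X k = x

/-- the set which is to be shown to be nonstationary: some `y` in `hodPow i` is not of the form
`X k ∩ i`, `k < i` -/
def BadSet (X : Ordinal.{0} → ZFSet.{0}) : Set Ordinal.{0} :=
  {i | ∃ y ∈ hodPow i, ∀ k < i, cut (X k) i ≠ y}

/-- the points at which `y` is smaller than `z` -/
def EE' (c : Ordinal.{0}) (A : Set Ordinal.{0}) (z : ZFSet.{0}) (y : Ordinal.{0} → ZFSet.{0}) :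
    Set Ordinal.{0} := {i | i ∈ A ∧ lt i (y i) (vv c z i)}

/-- the situation in the proof by contradiction -/
structure Setup (c : Ordinal.{0}) (A : Set Ordinal.{0}) (X : Ordinal.{0} → ZFSet.{0})
    (z : ZFSet.{0}) (y : Ordinal.{0} → ZFSet.{0}) : Prop where
  hod : HOD z
  stat : Stat (EE' c A z y) c
  new : ∀ i ∈ EE' c A z y, ∀ k < i, cut (X k) i ≠ y i
  low : AE c A (fun i => ∀ q, lt i q (y i) → ∃ k < i, q = cut (X k) i ∧ Kz c A z (X k))
  lub : Lub c A (Kz c A z) y

/-- the points of `EE'` at which the first difference between `y i` and `u` is `ξ` -/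
def Sd (c : Ordinal.{0}) (A : Set Ordinal.{0}) (z : ZFSet.{0}) (y : Ordinal.{0} → ZFSet.{0})
    (u : ZFSet.{0}) (ξ : Ordinal.{0}) : Set Ordinal.{0} :=
  {i | i ∈ EE' c A z y ∧ cut (y i) ξ = cut u ξ ∧ cut (y i) (ξ + 1) ≠ cut u (ξ + 1)}

/-- the strong form of the existence of atoms: there are enough atoms to meet every stationary
set `T` -/
def AtomsT (κ θ : Cardinal.{0}) : Prop :=
  ∀ (τ : Ordinal.{0}) (X T : Set Ordinal.{0}), θ < τ.cof → DPs X → Stat T τ →
    (∀ a ∈ T, a ∈ X) → (∀ a ∈ X, a.cof < κ) →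
    ∃ A, Atm τ A ∧ (∀ a ∈ A, a ∈ X) ∧ Stat {a | a ∈ A ∧ a ∈ T} τ

/-- the failure of the first case of the dichotomy -/
def Fl (κ : Cardinal.{0}) : Prop :=
  ∃ α : Ordinal.{0}, IsSuccLimit α ∧ κ.ord ≤ α ∧ α.cof < κ ∧ ¬ HODSing α

end Pool.Agent.Helper19.HN
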