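import Pool.Agent.Helper19.HN.St

/-! # HN: the theorems from the modules -/

namespace Pool.Agent.Helper19.HN

open Ordinal Cardinal ZFSet Order Pool.Agent.Helper73.HODC Pool.Agent.Helper73.HM
open Pool.Agent.Helper73.HE Pool.Agent.Helper73.HU Pool.Agent.Helper73.HX

/-- an atom of a regular cardinal above `θ` -/
theorem exists_atm {κ θ c : Cardinal.{0}} (hA : AtomsT κ θ) (hκ : ℵ₀ < κ) (hκθ : κ ≤ θ)
    (hc : c.IsRegular) (h : θ < c) : ∃ A, Atm c.ord A := by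
  have hcof : ℵ₀ < c.ord.cof := by
    rw [hc.cof_ord]
    exact (hκ.trans_le hκθ).trans h
  obtain ⟨A, hA, -, -⟩ := hA c.ord {a | a.cof = ℵ₀} {a | a.cof = ℵ₀} (by rw [hc.cof_ord]; exact h)
    (DP.of (dfn_cof_omega 0)) (stat_cof_omega hcof) (fun _ h => h)
    (fun a (ha : a.cof = ℵ₀) => by rw [ha]; exact hκ)
  exact ⟨A, hA⟩

theorem forward (hSM : StSM) (hNAT : StNAT) (hSUR : StSUR) (hGD : StGD) (hCLB : StCLB)
    (hENM : StENM) (hELE : StELE) {κ : Cardinal.{0}} (hκ : StronglyCompact κ) (hF : Fl κ) :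
    ∃ θ : Cardinal.{0}, κ ≤ θ ∧ (Extendible κ → θ = κ) ∧
      ∀ c : Cardinal.{0}, c.IsRegular → θ < c → NonRigid c := by
  obtain ⟨θ, hκθ, hθ, hA⟩ := hNAT κ hκ hF
  refine ⟨θ, hκθ, hθ, fun c hc h => ?_⟩
  have hc' : ℵ₀ < c := (hκ.unc.trans_le hκθ).trans h
  obtain ⟨A, hAc⟩ := exists_atm hA hκ.unc hκθ hc h
  obtain ⟨X, hX⟩ := hSUR κ θ c hA hκ.unc hκθ hc h
  obtain ⟨D, hD⟩ := hENM c hc hc' (hSM c A hc hAc)
  obtain ⟨C, hC, hC'⟩ := hCLB κ θ c X hκ hκθ hA hc h hX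
    fun B hB hBκ => hGD κ θ c B X hκ hκθ hA hc h hB hBκ hX
  exact hELE c X D C hc hc' hX hD hC hC'

/-- the failure of the first alternative from one embedding -/
theorem fl_of (hCNV : StCNV) {κ : Cardinal.{0}} (hκ : ℵ₀ < κ) {c : Cardinal.{0}}
    {g : Ordinal.{0}} {i : ZFSet.{0} → ZFSet.{0}} (hc : c.IsRegular) (hg : κ.ord ≤ g)
    (hgc : g < c.ord) (hcof : g.cof < κ) (hlim : IsSuccLimit g) (hi : HEmb g c.ord i) :
    Fl κ := by
  have hc' : ℵ₀ < c := by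
    have h1 : κ.ord < c.ord := hg.trans_lt hgc
    exact hκ.trans (Cardinal.ord_lt_ord.1 h1)
  exact ⟨g, hlim, hg, hcof, (hCNV c g i hc hc' hgc hlim hi).2⟩

/-- a limit ordinal from one embedding -/
theorem exists_emb_of {κ : Cardinal.{0}} (hκ : ℵ₀ < κ) {c : Cardinal.{0}} (hc : c.IsRegular)
    (hκc : κ < c) (h : NonRigid c) : ∃ (g : Ordinal.{0}) (i : ZFSet.{0} → ZFSet.{0}),
      κ.ord ≤ g ∧ g < c.ord ∧ g.cof = ℵ₀ ∧ HEmb g c.ord i := by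
  obtain ⟨C, i, hC, h1, -, -⟩ := h
  have hcof : ℵ₀ < c.ord.cof := by
    rw [hc.cof_ord]
    exact hκ.trans hκc
  have h2 := (stat_cof_omega hcof).inter_club hcof hC
  obtain ⟨g, ⟨hg1, hg2⟩, hg3, hg4⟩ := h2 _ (club_Ioi (isSuccLimit_of_cof hcof)
    (Cardinal.ord_lt_ord.2 hκc))
  exact ⟨g, i g, le_of_lt hg3, hg4, hg1, h1 g hg2 hg4⟩

end Pool.Agent.Helper19.HN
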