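import Pool.Agent.Helper19.HN.INE

/-! # HN, module WIN: weak ineffability at one regular cardinal implies the failure of the first
alternative -/

namespace Pool.Agent.Helper19.HN.WIN

open Ordinal Cardinal ZFSet Order Pool.Agent.Helper73.HODC Pool.Agent.Helper73.HM
open Pool.Agent.Helper73.HE Pool.Agent.Helper73.HU Pool.Agent.Helper73.HX Pool.Agent.Helper19.HN
open Pool.Agent.Helper19.HN.INE

theorem st_bdd (x : ZFSet.{0}) (a : Ordinal.{0}) (ha : a ∈ st x) : a < x.rank := by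
  obtain ⟨z, hz, rfl⟩ := ha
  exact rank_lt_of_mem hz

theorem otpLt_iff_code (x : ZFSet.{0}) (τ : Ordinal.{0}) :
    OtpLt (st x) τ ↔ ∃ ζ : Ordinal.{0}, ζ < τ ∧ ∃ z : ZFSet.{0},
      (∀ a, a ∈ st x → ∃ c, fn z a = c ∧ c < ζ) ∧
      ∀ a, ∀ b, (a ∈ st x ∧ b ∈ st x ∧ a < b) → ∃ c, ∃ d, fn z a = c ∧ fn z b = d ∧ c < d := by
  constructor
  · rintro ⟨ζ, hζ, g, h1, h2⟩
    obtain ⟨z, hz, -⟩ := exists_fn g x.rank
    refine ⟨ζ, hζ, z, fun a ha => ⟨_, rfl, ?_⟩, ?_⟩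
    · rw [hz a (st_bdd x a ha)]; exact h1 a ha
    · rintro a b ⟨ha, hb, hab⟩
      refine ⟨_, _, rfl, rfl, ?_⟩
      rw [hz a (st_bdd x a ha), hz b (st_bdd x b hb)]
      exact h2 a ha b hb hab
  · rintro ⟨ζ, hζ, z, h1, h2⟩
    refine ⟨ζ, hζ, fn z, fun a ha => ?_, fun a ha b hb hab => ?_⟩
    · obtain ⟨c, hc, hc'⟩ := h1 a ha
      rw [hc]; exact hc'
    · obtain ⟨c, d, hc, hd, hcd⟩ := h2 a b ⟨ha, hb, hab⟩
      rw [hc, hd]; exact hcd

theorem dp_otpLtV (j i : ℕ) : DP (fun v => OtpLt (st (v i)) (v j).rank) := by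
  refine DP.congr (Q := fun v => ∃ ζ : Ordinal.{0}, ζ < (v j).rank ∧ ∃ z : ZFSet.{0},
      (∀ a, a ∈ st (v i) → ∃ c, fn z a = c ∧ c < ζ) ∧
      ∀ a, ∀ b, (a ∈ st (v i) ∧ b ∈ st (v i) ∧ a < b) →
        ∃ c, ∃ d, fn z a = c ∧ fn z b = d ∧ c < d) ?_ (fun v => otpLt_iff_code (v i) _)
  refine DP.exO (Q := fun ζ v => ζ < (v j).rank ∧ ∃ z : ZFSet.{0},
      (∀ a, a ∈ st (v i) → ∃ c, fn z a = c ∧ c < ζ) ∧
      ∀ a, ∀ b, (a ∈ st (v i) ∧ b ∈ st (v i) ∧ a < b) →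
        ∃ c, ∃ d, fn z a = c ∧ fn z b = d ∧ c < d) ?_
  refine (DP.rank_lt 0 (j + 1)).and ?_
  refine DP.ex (Q := fun z v => (∀ a, a ∈ st (v (i + 1)) → ∃ c, fn z a = c ∧ c < (v 0).rank) ∧
      ∀ a, ∀ b, (a ∈ st (v (i + 1)) ∧ b ∈ st (v (i + 1)) ∧ a < b) →
        ∃ c, ∃ d, fn z a = c ∧ fn z b = d ∧ c < d) ?_
  refine DP.and ?_ ?_
  · refine DP.allO (Q := fun a v => a ∈ st (v (i + 2)) → ∃ c, fn (v 0) a = c ∧ c < (v 1).rank) ?_
    refine (DP.st 0 (i + 3)).imp ?_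
    refine DP.exO (Q := fun c v => fn (v 1) (v 0).rank = c ∧ c < (v 2).rank) ?_
    exact (DP.fn 2 1 0).and (DP.rank_lt 0 3)
  · refine DP.allO (Q := fun a v => ∀ b, (a ∈ st (v (i + 2)) ∧ b ∈ st (v (i + 2)) ∧ a < b) →
        ∃ c, ∃ d, fn (v 0) a = c ∧ fn (v 0) b = d ∧ c < d) ?_
    refine DP.allO (Q := fun b v => ((v 0).rank ∈ st (v (i + 3)) ∧ b ∈ st (v (i + 3)) ∧
        (v 0).rank < b) → ∃ c, ∃ d, fn (v 1) (v 0).rank = c ∧ fn (v 1) b = d ∧ c < d) ?_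
    refine ((DP.st 1 (i + 4)).and ((DP.st 0 (i + 4)).and (DP.rank_lt 1 0))).imp ?_
    refine DP.exO (Q := fun c v => ∃ d, fn (v 2) (v 1).rank = c ∧ fn (v 2) (v 0).rank = d ∧
      c < d) ?_
    refine DP.exO (Q := fun d v => fn (v 3) (v 2).rank = (v 0).rank ∧
      fn (v 3) (v 1).rank = d ∧ (v 0).rank < d) ?_
    exact (DP.fn 4 3 1).and ((DP.fn 4 2 0).and (DP.rank_lt 1 0))

theorem dp_smallCofV (k i j : ℕ) :
    DP (fun v => SmallCof (v k).rank (v i).rank (v j)) := by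
  refine DP.and ?_ ((DP.of (dn_dfn_unbIn j i)).and (dp_otpLtV k j))
  refine DP.allO (Q := fun b v => b ∈ st (v j) → b < (v i).rank) ?_
  exact (DP.st 0 (j + 1)).imp (DP.rank_lt 0 (i + 1))

open Classical in
/-- the least small cofinal subset of `g`, or the empty set -/
noncomputable def sc (lam g : Ordinal.{0}) : ZFSet.{0} :=
  if h : ∃ x, LeastOD lam (SmallCof g g) x then h.choose else ∅

theorem sc_spec {lam g : Ordinal.{0}} (h : ∃ x, LeastOD lam (SmallCof g g) x) :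
    LeastOD lam (SmallCof g g) (sc lam g) := by
  unfold sc
  rw [dif_pos h]
  exact h.choose_spec

theorem sc_none {lam g : Ordinal.{0}} (h : ¬ ∃ x, LeastOD lam (SmallCof g g) x) :
    sc lam g = ∅ := by
  unfold sc
  rw [dif_neg h]

theorem dp_sc (lam : Ordinal.{0}) : DP (fun v => v 0 = sc lam (v 1).rank) := by
  have h1 : ∀ i j : ℕ, DP (fun v => LeastOD lam (SmallCof (v j).rank (v j).rank) (v i)) :=
    fun i j => Inp.ld lam (fun x v => SmallCof (v j).rank (v j).rank x)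
      (dp_smallCofV (j + 1) (j + 1) 0) i
  refine ((h1 0 1).or ((DP.ex (Q := fun x v => LeastOD lam
    (SmallCof (v 1).rank (v 1).rank) x) (h1 0 2)).not.and
    (DP.all (Q := fun z v => ¬ z ∈ v 0) (DP.mem 0 1).not))).congr fun v => ?_
  by_cases h : ∃ x, LeastOD lam (SmallCof (v 1).rank (v 1).rank) x
  · constructor
    · intro h2
      left
      rw [h2]
      exact sc_spec h
    · rintro (h2 | ⟨h2, -⟩)
      · exact Inp.le.1 _ _ _ _ h2 (sc_spec h)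
      · exact absurd h h2
  · rw [sc_none h]
    constructor
    · intro h2
      right
      refine ⟨h, fun z hz => ?_⟩
      rw [h2] at hz
      exact ZFSet.notMem_empty z hz
    · rintro (h2 | ⟨-, h2⟩)
      · exact absurd ⟨_, h2⟩ h
      · exact (ZFSet.eq_empty _).2 h2

theorem sc_mem (lam g : Ordinal.{0}) : sc lam g ∈ hodPow g := by
  rw [mem_hodPow]
  by_cases h : ∃ x, LeastOD lam (SmallCof g g) x
  · obtain ⟨⟨h1, h2, h3⟩, -⟩ := sc_spec h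
    refine ⟨fun z hz => ?_, h1⟩
    obtain ⟨b, hb, rfl⟩ := mem_toZFSet_iff.1 (h2 hz)
    exact mem_toZFSet_iff.2 ⟨b, h3.1 b ⟨_, hz, rank_toZFSet b⟩, rfl⟩
  · rw [sc_none h]
    refine ⟨ZFSet.empty_subset _, ?_⟩
    have h1 : HOD (0 : Ordinal.{0}).toZFSet := HOD_toZFSet 0
    rw [toZFSet_zero] at h1
    exact HOD.od h1

theorem exists_sc {lam g : Ordinal.{0}} (hg : IsSuccLimit g) (hgl : g < lam)
    (h : ¬ HODReg g) : SmallCof g g (sc lam g) := by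
  refine (sc_spec (Inp.le.2 lam _ ?_)).1.2.2
  obtain ⟨γ, hγ, hγr, -, x, hx1, hx2, hx3⟩ := Inp.exg lam g hg hgl
  have hne : γ ≠ g := by
    rintro rfl
    exact h hγr
  have hγg : γ + 1 < g := hg.succ_lt (lt_of_le_of_ne hγ hne)
  refine ⟨x, hx1, hx2, hx3.1, hx3.2.1, ?_⟩
  obtain ⟨ζ, hζ, e, he⟩ := hx3.2.2
  exact ⟨ζ, hζ.trans hγg, e, he⟩

theorem win (κ c : Cardinal.{0}) (hκ : ℵ₀ < κ) (hc : c.IsRegular) (hκc : κ < c)
    (hI : WeakIneff c) : Fl κ := by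
  by_contra hF
  have hc' : ℵ₀ < c := hκ.trans hκc
  have hτ : ℵ₀ < c.ord.cof := reg_cof hc hc'
  obtain ⟨b, hb, hst⟩ := hI (sc c.ord) (gr' _ _ (dp_sc c.ord) fun a _ =>
    HOD_of_mem (sc_mem c.ord a)) fun g _ => sc_mem c.ord g
  have hst' := hst.inter_club hτ (club_Ioi (isSuccLimit_of_cof hτ) (Cardinal.ord_lt_ord.2 hκc))
  have hsm : ∀ g ∈ {g | g.cof = ℵ₀ ∧ sc c.ord g = cut b g} ∩ {a | κ.ord < a}, g < c.ord →
      SmallCof g g (sc c.ord g) := by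
    rintro g ⟨⟨hg1, hg2⟩, hg3⟩ hgc
    have hlim : IsSuccLimit g := one_lt_cof_iff.1 (by rw [hg1]; exact one_lt_aleph0)
    refine exists_sc hlim hgc fun h => ?_
    exact hF ⟨g, hlim, le_of_lt hg3, by rw [hg1]; exact hκ, h.2⟩
  refine otp_contra hc hc' (B := st b) hst' ?_ ?_
  · rintro g hg hgc a ha
    obtain ⟨d, hd, had, hdg⟩ := (hsm g hg hgc).2.1 a ha
    rw [hg.1.2, st_cut] at hd
    exact ⟨d, hd.1, had, hdg⟩
  · rintro g hg hgc
    have h3 : {a | a ∈ st b ∧ a < g} = st (sc c.ord g) := by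
      ext a
      rw [hg.1.2, st_cut]
      rfl
    rw [h3]
    exact (hsm g hg hgc).2.2

end Pool.Agent.Helper19.HN.WIN
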