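import Pool.Agent.Helper19.HN.Fin
import Pool.Agent.Helper19.HN.WIN

/-! # HN: the equivalence -/

namespace Pool.Agent.Helper19.HN

open Ordinal Cardinal ZFSet Order Pool.Agent.Helper73.HODC Pool.Agent.Helper73.HM
open Pool.Agent.Helper73.HE Pool.Agent.Helper73.HU Pool.Agent.Helper73.HX

theorem weak_of {c : Cardinal.{0}} (hc : c.IsRegular) (hc' : ℵ₀ < c) (h : Ineff c) :
    WeakIneff c := by
  intro y _ hy
  have hτ : ℵ₀ < c.ord.cof := reg_cof hc hc'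
  obtain ⟨x, hx, hst⟩ := h {g | g.cof = ℵ₀} y (stat_cof_omega hτ)
    fun g _ hgc => INE.hodPow_sub_hodV (hy g hgc)
  refine ⟨x, ?_, hst⟩
  rw [mem_hodPow]
  refine ⟨fun z hz => ?_, HOD.od hx.1⟩
  have hzc : z.rank < c.ord := (rank_lt_of_mem hz).trans_le hx.2
  obtain ⟨g, ⟨-, hg⟩, hzg, hgc⟩ := hst _ (club_Ioi (isSuccLimit_of_cof hτ) hzc)
  have h1 : z ∈ cut x g := mem_cut.2 ⟨hz, hzg⟩
  rw [← hg] at h1
  exact (mem_hodPow.1 (hodPow_mono hgc.le (hy g hgc))).1 h1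

/-- in the second alternative of the dichotomy the HOD Hypothesis fails -/
theorem not_hyp_of_fl {κ : Cardinal.{0}} (hκ : StronglyCompact κ) (hF : Fl κ) :
    ¬ HODHypothesis := by
  obtain ⟨α, h1, h2, h3, h4⟩ := hF
  rcases mitchell κ hκ with ⟨-, h⟩ | ⟨θ, -, h⟩
  · exact absurd (h α h1 h2 h3) h4
  · intro hH
    obtain ⟨c, hc, hθ, hn⟩ := hH θ
    exact hn (h c hc hθ).1

theorem equiv (hSM : StSM) (hNAT : StNAT) (hSUR : StSUR) (hGD : StGD) (hCLB : StCLB)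
    (hENM : StENM) (hELE : StELE) (hHUL : StHUL) (hCNV : StCNV) {κ : Cardinal.{0}}
    (hκ : StronglyCompact κ) : List.TFAE [¬ HODHypothesis,
      ∃ θ : Cardinal.{0}, (Extendible κ → θ = κ) ∧ ∀ c : Cardinal.{0}, c.IsRegular → θ < c →
        NonRigid c ∧ Ineff c,
      ∃ (c : Cardinal.{0}) (g : Ordinal.{0}) (i : ZFSet.{0} → ZFSet.{0}), c.IsRegular ∧
        IsSuccLimit g ∧ κ.ord ≤ g ∧ g < c.ord ∧ g.cof < κ ∧ HEmb g c.ord i,
      ∃ c : Cardinal.{0}, c.IsRegular ∧ κ < c ∧ WeakIneff c] := by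
  have h12 : ¬ HODHypothesis → ∃ θ : Cardinal.{0}, κ ≤ θ ∧ (Extendible κ → θ = κ) ∧
      ∀ c : Cardinal.{0}, c.IsRegular → θ < c → NonRigid c ∧ Ineff c := by
    intro h
    obtain ⟨θ, hκθ, hθ, hA⟩ := hNAT κ hκ (fail_of hκ h)
    refine ⟨θ, hκθ, hθ, fun c hc h => ?_⟩
    have hc' : ℵ₀ < c := (hκ.unc.trans_le hκθ).trans h
    obtain ⟨A, hAc⟩ := exists_atm hA hκ.unc hκθ hc h
    obtain ⟨X, hX⟩ := hSUR κ θ c hA hκ.unc hκθ hc h
    obtain ⟨D, hD⟩ := hENM c hc hc' (hSM c A hc hAc)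
    obtain ⟨C, hC, hC'⟩ := hCLB κ θ c X hκ hκθ hA hc h hX
      fun B hB hBκ => hGD κ θ c B X hκ hκθ hA hc h hB hBκ hX
    obtain ⟨m, C', h1, -, h3, h4⟩ := hHUL c X D C hc hc' hX hD hC hC'
    exact ⟨hELE c X D C hc hc' hX hD hC hC', INE.ine c m C' hc hc' h1 h3 h4⟩
  have hreg : ∀ θ : Cardinal.{0}, ∃ c : Cardinal.{0}, c.IsRegular ∧ max κ θ < c := fun θ =>
    ⟨succ (max κ θ), Cardinal.isRegular_succ ((hκ.unc.le).trans (le_max_left _ _)),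
      Order.lt_succ _⟩
  tfae_have 1 → 2 := by
    intro h
    obtain ⟨θ, -, h1, h2⟩ := h12 h
    exact ⟨θ, h1, h2⟩
  tfae_have 2 → 3 := by
    rintro ⟨θ, -, h⟩
    obtain ⟨c, hc, hθc⟩ := hreg θ
    have hκc : κ < c := (le_max_left _ _).trans_lt hθc
    obtain ⟨g, i, h1, h2, h3, h4⟩ := exists_emb_of hκ.unc hc hκc
      (h c hc ((le_max_right _ _).trans_lt hθc)).1
    exact ⟨c, g, i, hc, one_lt_cof_iff.1 (by rw [h3]; exact one_lt_aleph0), h1, h2,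
      by rw [h3]; exact hκ.unc, h4⟩
  tfae_have 2 → 4 := by
    rintro ⟨θ, -, h⟩
    obtain ⟨c, hc, hθc⟩ := hreg θ
    have hκc : κ < c := (le_max_left _ _).trans_lt hθc
    exact ⟨c, hc, hκc, weak_of hc (hκ.unc.trans hκc) (h c hc ((le_max_right _ _).trans_lt hθc)).2⟩
  tfae_have 3 → 1 := by
    rintro ⟨c, g, i, hc, hlim, hg, hgc, hcof, hi⟩
    exact not_hyp_of_fl hκ (fl_of hCNV hκ.unc hc hg hgc hcof hlim hi)
  tfae_have 4 → 1 := by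
    rintro ⟨c, hc, hκc, h⟩
    exact not_hyp_of_fl hκ (WIN.win κ c hκ.unc hc hκc h)
  tfae_finish

end Pool.Agent.Helper19.HN
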