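import Pool.Agent.Helper19.HN.St
import Pool.Agent.Helper19.HN.Base

/-! # HN: module GD -/

namespace Pool.Agent.Helper19.HN.GD

open Ordinal Cardinal ZFSet Order Pool.Agent.Helper73.HODC Pool.Agent.Helper73.HM
open Pool.Agent.Helper73.HE Pool.Agent.Helper73.HU Pool.Agent.Helper19.HN

theorem sd_disj {c : Ordinal.{0}} {A : Set Ordinal.{0}} {z u : ZFSet.{0}}
    {y : Ordinal.{0} → ZFSet.{0}} {ξ η a : Ordinal.{0}} (h : a ∈ Sd c A z y u ξ)
    (h' : a ∈ Sd c A z y u η) : ξ = η := by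
  have key : ∀ ξ η : Ordinal.{0}, a ∈ Sd c A z y u ξ → a ∈ Sd c A z y u η → ¬ ξ < η := by
    rintro ξ η ⟨-, -, h3⟩ ⟨-, h5, -⟩ hlt
    have h6 : ξ + 1 ≤ η := Order.add_one_le_of_lt hlt
    have h7 := congrArg (fun x => cut x (ξ + 1)) h5
    simp only [cut_cut h6] at h7
    exact h3 h7
  exact le_antisymm (not_lt.1 (key _ _ h' h)) (not_lt.1 (key _ _ h h'))

/-- a definable set of small size which is unbounded -/
theorem sing_of_small {κ : Cardinal.{0}} {α : Ordinal.{0}} (hκ : ℵ₀ < κ) (hα : IsSuccLimit α)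
    (hκα : κ.ord ≤ α) {P : Ordinal.{0} → Prop} (hP : DP (fun v => P (v 0).rank))
    (hb : Cardinal.mk {ξ : Ordinal.{0} // ξ < α ∧ P ξ} < Cardinal.lift.{1} κ)
    (hc : ∀ β < α, ∃ η < α, β < η ∧ P η) : HODSing α := by
  have hω : (1 : Ordinal.{0}) < α := by
    have : ω ≤ κ.ord := by
      rw [← ord_aleph0]; exact ord_le_ord.2 hκ.le
    exact one_lt_omega0.trans_le (this.trans hκα)
  refine hodSing_of_rel (ρ := 1) (κ := κ) (E := fun _ η => η < α ∧ P η) hα ?_ hω hκα ?_ ?_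
  · rw [odRel_iff_DP]
    exact ((DP.rank_lt_ord 0 α).and hP).rename (fun _ => 1)
  · intro ξ _
    exact hb
  · intro β hβ
    obtain ⟨η, h1, h2, h3⟩ := hc β hβ
    exact ⟨0, zero_lt_one, η, h1, h2, h1, h3⟩

theorem gd (h1 : StSET) (h2 : StLUR) (h3 : StTRE) (h4 : StSDF) (h5 : StAR) (h6 : StLC) :
    StGD := by
  classical
  intro κ θ c A X hκ hκθ hAt hc hθ hA hAκ hX hSt
  have hτ : ℵ₀ < c.ord.cof := hA.cof
  have hκc : κ < c := hκθ.trans_lt hθ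
  obtain ⟨z, y, hS⟩ := h1 c A X hc hA hX hSt
  obtain ⟨μ, C₁, hC₁, hC₁'⟩ := h2 c A X z y hc hA hX hS
  obtain ⟨i₀, hj, hi₀c, hi₀A, hi₀, u, hu, hunb⟩ :=
    h3 c A X z y hc hA hX hS κ.ord (ord_lt_ord.2 hκc)
  have hB := h4 c.ord c.ord A z z u y hτ hA.dps hS.hod hS.hod (HOD_of_mem hu) hS.lub
  have hunb' : ∀ β < i₀, ∃ η < i₀, β < η ∧ Stat (Sd c.ord A z y u η) c.ord := by
    intro β hβ
    obtain ⟨ξ', h7, h8, h9⟩ := hunb (Order.succ β) (hi₀.1.succ_lt hβ)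
    exact ⟨ξ', h8, (Order.lt_succ β).trans_le h7, h9⟩
  -- the set of all such ordinals has at least κ elements
  have hcard : Cardinal.lift.{1} κ ≤
      Cardinal.mk {ξ : Ordinal.{0} // ξ < i₀ ∧ Stat (Sd c.ord A z y u ξ) c.ord} := by
    by_contra hcon
    exact hi₀.2 (sing_of_small hκ.unc hi₀.1 hj.le hB (not_le.1 hcon) hunb')
  -- the index type
  have hT : ∃ (T : Type) (e : T → Ordinal.{0}), Cardinal.mk T < κ ∧ Function.Injective e ∧
      (∀ t, e t < i₀ ∧ Stat (Sd c.ord A z y u (e t)) c.ord) ∧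
      (μ < κ → Cardinal.mk T = Order.succ μ) := by
    by_cases hμ : μ < κ
    · have h7 : Order.succ μ < κ := lt_of_le_of_lt (Order.succ_le_of_lt (Cardinal.cantor _))
        (h6 κ hκ μ hμ)
      have h8 : Cardinal.lift.{1} (Cardinal.mk (Order.succ μ).out) ≤
          Cardinal.mk {ξ : Ordinal.{0} // ξ < i₀ ∧ Stat (Sd c.ord A z y u ξ) c.ord} := by
        rw [Cardinal.mk_out]
        exact (Cardinal.lift_le.2 h7.le).trans hcard
      rw [← Cardinal.mk_uLift] at h8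
      obtain ⟨f⟩ := Cardinal.le_def _ _ |>.1 h8
      exact ⟨(Order.succ μ).out, fun t => (f ⟨t⟩).1, by rw [Cardinal.mk_out]; exact h7,
        fun t t' htt => by
          have := f.injective (Subtype.ext htt)
          exact ULift.up_injective this, fun t => (f ⟨t⟩).2, fun _ => Cardinal.mk_out _⟩
    · exact ⟨PEmpty, fun t => t.elim, by
        rw [Cardinal.mk_pempty]; exact aleph0_pos.trans hκ.unc, fun t => t.elim,
        fun t => t.elim, fun h => absurd h hμ⟩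
  obtain ⟨T, e, hTκ, he, heB, hTμ⟩ := hT
  obtain ⟨ι, b, hι, hb, hb'⟩ := cv_cofinal i₀
  have hbe : ∀ i : ι, ∃ ξ, b i ≤ ξ ∧ ξ < i₀ ∧ Stat (Sd c.ord A z y u ξ) c.ord := fun i => by
    obtain ⟨η, h7, h8, h9⟩ := hunb' (b i) (hb i)
    exact ⟨η, h8.le, h7, h9⟩
  choose b₂ hb₂ using hbe
  have hSA : ∀ ξ, ∀ a ∈ Sd c.ord A z y u ξ, a ∈ A := fun ξ a ha => ha.1.1
  have hrefl := Inp.refl κ c hκ hc hκc.le (ι ⊕ T) (by
      rw [Cardinal.mk_sum, Cardinal.lift_id, Cardinal.lift_id, hι]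
      exact Cardinal.add_lt_of_lt hκ.unc.le (hAκ _ hi₀A) hTκ)
    (Sum.elim (fun i => Sd c.ord A z y u (b₂ i)) (fun t => Sd c.ord A z y u (e t)))
    (by
      rintro (i | t)
      · exact (hb₂ i).2.2
      · exact (heB t).2)
    (by
      rintro (i | t)
      · exact fun a ha => hAκ a (hSA _ a ha)
      · exact fun a ha => hAκ a (hSA _ a ha))
  -- a club avoiding the exceptions of AR
  have hD : ∃ D, Club D c.ord ∧ ∀ ρ ∈ D, ρ < c.ord → ℵ₀ < ρ.cof → ρ.cof < κ → Stat A ρ →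
      Atom ρ A := by
    have h7 := h5 κ θ c A hAt hc hθ hA
    unfold Stat at h7
    push Not at h7
    obtain ⟨D, hD, h8⟩ := h7
    refine ⟨D, hD, fun ρ hρ hρc hρ0 hρκ hρA => ?_⟩
    by_contra hcon
    exact absurd hρc (not_lt.2 (h8 ρ ⟨hρ0, hρκ, hρA, hcon⟩ hρ))
  obtain ⟨D, hD, hD'⟩ := hD
  obtain ⟨σ, ⟨hσ0, hσκ, hσ⟩, ⟨hσC, hσD⟩, hσc⟩ := hrefl _ (hC₁.inter hτ hD)
  obtain ⟨i₁, -⟩ := hb' 0 (by
    have := hi₀.1.bot_lt
    rwa [Ordinal.bot_eq_zero] at this)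
  have hσA : Stat A σ := (hσ (Sum.inl i₁)).mono fun a ha _ => hSA _ a ha
  have hatom : Atom σ A := hD' σ hσD hσc hσ0 hσκ hσA
  -- the number of sets which are stationary in σ
  have hY : Cardinal.mk {ξ : Ordinal.{0} // ξ < i₀ ∧ Stat (Sd c.ord A z y u ξ) σ} ≤
      Cardinal.lift.{1} σ.cof :=
    Inp.dj σ {ξ | ξ < i₀ ∧ Stat (Sd c.ord A z y u ξ) σ} (fun ξ => Sd c.ord A z y u ξ) hσ0
      (fun ξ hξ => hξ.2) (fun ξ _ η _ a ha ha' => sd_disj ha ha')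
  have hσμ : σ.cof ≠ μ := by
    by_cases hμ : μ < κ
    · have h7 : Cardinal.lift.{1} (Cardinal.mk T) ≤
          Cardinal.mk {ξ : Ordinal.{0} // ξ < i₀ ∧ Stat (Sd c.ord A z y u ξ) σ} := by
        rw [← Cardinal.mk_uLift]
        refine Cardinal.mk_le_of_injective (f := fun t : ULift.{1} T =>
          (⟨e t.down, (heB t.down).1, hσ (Sum.inr t.down)⟩ :
            {ξ : Ordinal.{0} // ξ < i₀ ∧ Stat (Sd c.ord A z y u ξ) σ})) ?_
        intro t t' htt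
        exact ULift.down_injective (he (congrArg Subtype.val htt))
      have h8 := Cardinal.lift_le.1 (h7.trans hY)
      rw [hTμ hμ] at h8
      exact (lt_of_lt_of_le (Order.lt_succ μ) h8).ne'
    · exact (hσκ.trans_le (not_lt.1 hμ)).ne
  obtain ⟨w, hw, hlub⟩ := hC₁' σ hσC hσc hσ0 hσμ hatom
  have hB' := h4 c.ord σ A z w u y hσ0 hA.dps hS.hod hw (HOD_of_mem hu) hlub
  refine hi₀.2 (sing_of_small hκ.unc hi₀.1 hj.le hB'
    (lt_of_le_of_lt hY (Cardinal.lift_lt.2 hσκ)) ?_)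
  intro β hβ
  obtain ⟨i, hi⟩ := hb' (Order.succ β) (hi₀.1.succ_lt hβ)
  exact ⟨b₂ i, (hb₂ i).2.1, (Order.lt_succ β).trans_le (hi.trans (hb₂ i).1), hσ (Sum.inl i)⟩

end Pool.Agent.Helper19.HN.GD
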