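import Pool.Agent.Helper19.HN.St

/-! # HN, modules INE and INC: ineffability of HOD -/

namespace Pool.Agent.Helper19.HN.INE

open Ordinal Cardinal ZFSet Order Pool.Agent.Helper73.HODC Pool.Agent.Helper73.HM
open Pool.Agent.Helper73.HE Pool.Agent.Helper73.HU Pool.Agent.Helper73.HX Pool.Agent.Helper19.HN

theorem ine : StINE := by
  intro c m C' hc hc' hm hC' hall S y hS hy
  have hτ : ℵ₀ < c.ord.cof := reg_cof hc hc'
  have hS' : Stat (S ∩ C') c.ord := hS.inter_club hτ hC'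
  have h1 : ∀ g, ∃ k, g ∈ S ∩ C' → g < c.ord → k < g ∧ cut (m k) g = y g := by
    intro g
    by_cases hg : g ∈ S ∩ C' ∧ g < c.ord
    · obtain ⟨k, hk⟩ := hall g hg.1.2 hg.2 (y g) (hy g hg.1.1 hg.2)
      exact ⟨k, fun _ _ => hk⟩
    · exact ⟨0, fun h2 h3 => absurd ⟨h2, h3⟩ hg⟩
  choose r hr using h1
  obtain ⟨b, hb, hSb⟩ := fodor hc hc' hS' (r := r) fun a ha hac _ => (hr a ha hac).1
  refine ⟨m b, hm b hb, hSb.mono fun g hg hgc => ⟨hg.1.1, ?_⟩⟩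
  have h2 := (hr g hg.1 hgc).2
  rw [hg.2] at h2
  exact h2.symm

/-- a set which is unbounded in stationarily many points and of small order type below them -/
theorem otp_contra {c : Cardinal.{0}} (hc : c.IsRegular) (hc' : ℵ₀ < c) {B S : Set Ordinal.{0}}
    (hS : Stat S c.ord) (h1 : ∀ g ∈ S, g < c.ord → UnbIn B g)
    (h2 : ∀ g ∈ S, g < c.ord → OtpLt {a | a ∈ B ∧ a < g} g) : False := by
  have hτ : ℵ₀ < c.ord.cof := reg_cof hc hc'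
  have hun : ∀ β < c.ord, ∃ b ∈ B, β < b ∧ b < c.ord := by
    intro β hβ
    obtain ⟨g, hg, hβg, hgc⟩ := hS _ (club_Ioi (isSuccLimit_of_cof hτ) hβ)
    obtain ⟨b, hb, hβb, hbg⟩ := h1 g hg hgc β hβg
    exact ⟨b, hb, hβb, hbg.trans hgc⟩
  have h3 : ∀ g, ∃ ζ, g ∈ S → g < c.ord → ζ < g ∧ ∃ e : Ordinal.{0} → Ordinal.{0},
      (∀ a ∈ {a | a ∈ B ∧ a < g}, e a < ζ) ∧
      ∀ a ∈ {a | a ∈ B ∧ a < g}, ∀ b ∈ {a | a ∈ B ∧ a < g}, a < b → e a < e b := by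
    intro g
    by_cases hg : g ∈ S ∧ g < c.ord
    · obtain ⟨ζ, hζ, e, he⟩ := h2 g hg.1 hg.2
      exact ⟨ζ, fun _ _ => ⟨hζ, e, he⟩⟩
    · exact ⟨0, fun h2 h3 => absurd ⟨h2, h3⟩ hg⟩
  choose r hr using h3
  obtain ⟨ζ, hζ, hSζ⟩ := fodor hc hc' hS (r := r) fun a ha hac _ => (hr a ha hac).1
  obtain ⟨b, hb, hbE⟩ := enum_regular hc hun ζ hζ
  obtain ⟨g, ⟨hg, hgζ⟩, hbg, hgc⟩ := hSζ _ (club_Ioi (isSuccLimit_of_cof hτ) hb)
  obtain ⟨-, e, he1, he2⟩ := hr g hg hgc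
  rw [hgζ] at he1
  obtain ⟨hbB, f, hf1, hf2, -⟩ := hbE
  have hbg' : b < g := hbg
  have key : ∀ x, x < ζ → x ≤ e (f x) := by
    intro x
    induction x using WellFoundedLT.induction with
    | ind x ih =>
      intro hx
      refine le_of_forall_lt fun y hy => ?_
      exact (ih y hy (hy.trans hx)).trans_lt
        (he2 _ ⟨(hf1 y (hy.trans hx)).1, (hf1 y (hy.trans hx)).2.trans hbg'⟩ _
          ⟨(hf1 x hx).1, (hf1 x hx).2.trans hbg'⟩ (hf2 y (hy.trans hx) x hx hy))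
  have h4 : ζ ≤ e b := by
    refine le_of_forall_lt fun y hy => ?_
    exact (key y hy).trans_lt (he2 _ ⟨(hf1 y hy).1, (hf1 y hy).2.trans hbg'⟩ _ ⟨hbB, hbg'⟩
      (hf1 y hy).2)
  exact absurd (he1 b ⟨hbB, hbg'⟩) (not_lt.2 h4)

theorem hodPow_sub_hodV {x : ZFSet.{0}} {g : Ordinal.{0}} (hx : x ∈ hodPow g) : x ∈ hodV g := by
  refine ⟨HOD_of_mem hx, ?_⟩
  have h1 := rank_mono (mem_hodPow.1 hx).1
  rwa [rank_toZFSet] at h1

theorem inc : StINC := by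
  intro κ c hκ hc hκc hI
  by_contra hF
  have hc' : ℵ₀ < c := hκ.trans hκc
  have hτ : ℵ₀ < c.ord.cof := reg_cof hc hc'
  set S : Set Ordinal.{0} := {g | g.cof = ℵ₀} ∩ {g | κ.ord < g} with hSdef
  have hS : Stat S c.ord := (stat_cof_omega hτ).inter_club hτ
    (club_Ioi (isSuccLimit_of_cof hτ) (Cardinal.ord_lt_ord.2 hκc))
  have h1 : ∀ g, ∃ x, g ∈ S → g < c.ord → x ∈ hodPow g ∧ SmallCof g g x := by
    intro g
    by_cases hg : g ∈ S ∧ g < c.ord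
    · have hcof : g.cof = ℵ₀ := hg.1.1
      have hlim : IsSuccLimit g := one_lt_cof_iff.1 (by rw [hcof]; exact one_lt_aleph0)
      obtain ⟨γ, hγ, hγr, -, x, hx1, hx2, hx3⟩ := Inp.exg c.ord g hlim hg.2
      have hne : γ ≠ g := by
        rintro rfl
        exact hF ⟨γ, hlim, le_of_lt hg.1.2, by rw [hcof]; exact hκ, hγr.2⟩
      have hγg : γ + 1 < g := hlim.succ_lt (lt_of_le_of_ne hγ hne)
      refine ⟨x, fun _ _ => ⟨?_, hx3.1, hx3.2.1, ?_⟩⟩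
      · rw [mem_hodPow]
        refine ⟨fun z hz => ?_, hx1⟩
        obtain ⟨b, hb, rfl⟩ := mem_toZFSet_iff.1 (hx2 hz)
        refine mem_toZFSet_iff.2 ⟨b, hx3.1 b ?_, rfl⟩
        exact ⟨_, hz, rank_toZFSet b⟩
      · obtain ⟨ζ, hζ, e, he⟩ := hx3.2.2
        exact ⟨ζ, hζ.trans hγg, e, he⟩
    · exact ⟨∅, fun h2 h3 => absurd ⟨h2, h3⟩ hg⟩
  choose y hy using h1
  obtain ⟨x, hx, hst⟩ := hI S y hS fun g hg hgc => hodPow_sub_hodV (hy g hg hgc).1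
  refine otp_contra hc hc' (B := st x) hst ?_ ?_
  · rintro g ⟨hg, hgy⟩ hgc a ha
    obtain ⟨b, hb, hab, hbg⟩ := (hy g hg hgc).2.2.1 a ha
    rw [hgy, st_cut] at hb
    exact ⟨b, hb.1, hab, hbg⟩
  · rintro g ⟨hg, hgy⟩ hgc
    have h3 : {a | a ∈ st x ∧ a < g} = st (y g) := by
      ext a
      rw [hgy, st_cut]
      rfl
    rw [h3]
    exact (hy g hg hgc).2.2.2

end Pool.Agent.Helper19.HN.INE
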