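import Pool.Agent.Helper73.HX.Top
import Pool.Agent.Helper19.HN.Defs

/-! # HN: the facts from the earlier projects, without hypotheses -/

namespace Pool.Agent.Helper19.HN.Inp

open Ordinal Cardinal ZFSet Order Pool.Agent.Helper73.HODC Pool.Agent.Helper73.HE
open Pool.Agent.Helper73.HM Pool.Agent.Helper73.HU Pool.Agent.Helper73.HV Pool.Agent.Helper73.HX
open Pool.Agent

theorem refl : StRefl := refl_of Helper32.HM.ra Helper38.HM.rc Helper11.HM.RS.rs
theorem tc : StTC := Helper77.HM.TC.tc
theorem ts : StTS := Helper12.HM.ts tc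
theorem td : StTD := td_of tc ts
theorem oz : StOZ := Helper30.HM.oz td
theorem hp : StHP := hp_of td oz
theorem le : StLE := Helper14.HM.le tc oz
theorem ls : StLS := Helper62.HM.LS.ls td
theorem ld : StLD := ld_of hp ls
theorem re : StRE := Helper73.HM.re
theorem ne : StNE := Helper73.HM.ne le
theorem nd : StND := Helper73.HM.nd re ld
theorem cf : StCF := Helper14.HM.cf
theorem dj : StDJ := Helper66.HM.dj
theorem nmap : StNMap := Helper68.HU.nmap
theorem tr : StTR := Helper68.HU.tr
theorem rf : StRF := Helper68.HU.rf refl nmap tr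
theorem fo : StFO := Helper68.HU.fo nmap tr
theorem pg : StPG := Helper73.HU.pg
theorem cvo : StCVO := Helper73.HU.cvo rf dj
theorem nso : StNSO := Helper73.HU.nso le ne nd
theorem nao : StNAO := Helper73.HU.nao le ne nd nso
theorem eb : StEB := Helper31.HU.EB.eb
theorem bd : StBD := Helper8.HU.bd eb
theorem pb : StPB := Helper17.HV.pb nmap tr
theorem exg : StEXG := Helper76.HV.exg
theorem cu : StCU := Helper38.HVCU.cu nmap tr
theorem nu : StNU := Helper68.HV.nu cf nmap
theorem hy : StHY := Helper96.HM.hy
theorem pw : StPW := Helper29.HM.PW.pw le ld re hp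

end Pool.Agent.Helper19.HN.Inp
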