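import Pool.Agent.Helper73.HX.Defs
import Pool.Agent.Helper73.HU.Defs

/-!
# Local non-rigidity of HOD.  The notions of the theorem
-/

namespace Pool.Agent.Helper19.HN

open Ordinal Cardinal ZFSet Order Pool.Agent.Helper73.HODC Pool.Agent.Helper73.HM
open Pool.Agent.Helper73.HE Pool.Agent.Helper73.HU

/-! ### The notions of the theorem -/

/-- the set `V_(g+1)` of HOD: all sets in HOD of rank at most `g` -/
def hodV (g : Ordinal.{0}) : Set ZFSet.{0} := {x | HOD x ∧ x.rank ≤ g}

/-- the part of `x` of rank less than `g`: the set `x ∩ V_g` -/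
noncomputable def cut (x : ZFSet.{0}) (g : Ordinal.{0}) : ZFSet.{0} :=
  ZFSet.sep (fun z => z.rank < g) x

/-- `i` is an elementary embedding of `V_(g+1)` of HOD into `V_(c+1)` of HOD which is the identity
on the sets of rank less than `g`, such that `i g = c` and `i x ∩ V_g = x` for all `x` -/
structure HEmb (g c : Ordinal.{0}) (i : ZFSet.{0} → ZFSet.{0}) : Prop where
  maps : ∀ x ∈ hodV g, i x ∈ hodV c
  elem : ∀ (φ : Fm) (v : ℕ → ZFSet.{0}), (∀ n, v n ∈ hodV g) →
    (Sat (hodV g) φ v ↔ Sat (hodV c) φ (fun n => i (v n)))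
  fix : ∀ x ∈ hodV g, x.rank < g → i x = x
  cut_eq : ∀ x ∈ hodV g, cut (i x) g = x
  crit : i g.toZFSet = c.toZFSet

/-- the conclusion of the theorem for one cardinal `c`: for all `g` in a closed unbounded subset
`C` of `c` there are such embeddings `i g`; each value of `i g` is a value of `i g'` for all large
`g'` in `C` below `g`, and for all `g'` in `C` above `g`; and every `x` in `V_(c+1)` of HOD is the
value of `i g` at `x ∩ V_g` for all large `g` in `C` -/
def NonRigid (c : Cardinal.{0}) : Prop :=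
  ∃ (C : Set Ordinal.{0}) (i : Ordinal.{0} → ZFSet.{0} → ZFSet.{0}), Club C c.ord ∧
    (∀ g ∈ C, g < c.ord → HEmb g c.ord (i g)) ∧
    (∀ g ∈ C, g < c.ord → ∀ x ∈ hodV g, ∃ b < g, ∀ g' ∈ C, b < g' → g' < c.ord →
      i g' (cut (i g x) g') = i g x) ∧
    ∀ x ∈ hodV c.ord, ∃ b < c.ord, ∀ g ∈ C, b < g → g < c.ord → i g (cut x g) = x

/-- HOD is ineffable at `c`: for every function `y` (in `V`) on a stationary set `S` such that
`y g` is in `V_(g+1)` of HOD for all `g` there is one `x` in `V_(c+1)` of HOD such that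
`y g = x ∩ V_g` for stationarily many `g` in `S` -/
def Ineff (c : Cardinal.{0}) : Prop :=
  ∀ (S : Set Ordinal.{0}) (y : Ordinal.{0} → ZFSet.{0}), Stat S c.ord →
    (∀ g ∈ S, g < c.ord → y g ∈ hodV g) →
    ∃ x ∈ hodV c.ord, Stat {g | g ∈ S ∧ y g = cut x g} c.ord

/-- a weak form of ineffability at `c`: for every sequence `⟨y g : g < c⟩` in HOD with `y g ⊆ g`
there is a set `b ⊆ c` in HOD such that `y g = b ∩ g` for stationarily many (in the sense of `V`)
ordinals `g < c` of cofinality `ω` -/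
def WeakIneff (c : Cardinal.{0}) : Prop :=
  ∀ y : Ordinal.{0} → ZFSet.{0}, HOD (gr c.ord y) → (∀ g < c.ord, y g ∈ hodPow g) →
    ∃ b ∈ hodPow c.ord, Stat {g | g.cof = ℵ₀ ∧ y g = cut b g} c.ord

end Pool.Agent.Helper19.HN
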