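import Pool.Agent.Helper19.HN.Fin2
import Pool.Agent.Helper84.HN.SET
import Pool.Agent.Helper58.HN.LUR
import Pool.Agent.Helper89.HN.TRE
import Pool.Agent.Helper67.HN.SDF
import Pool.Agent.Helper33.HN.AR
import Pool.Agent.Helper57.HN.LC
import Pool.Agent.Helper96.HN.NAT
import Pool.Agent.Helper48.HN.SUR
import Pool.Agent.Helper80.HN.CLB
import Pool.Agent.Helper7.HN.ENM
import Pool.Agent.Helper76.HN.HLD
import Pool.Agent.Helper78.HN.HLO
import Pool.Agent.Helper6.HN.ENU
import Pool.Agent.Helper79.HN.TV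
import Pool.Agent.Helper4.HN.ELE
import Pool.Agent.Helper13.HN.CNV
import Pool.Agent.Helper8.HN.NSP
import Pool.Agent.Helper92.HN.SM
import Pool.Agent.Helper37.HN.REG
import Pool.Agent.Helper73.HN.RK
import Pool.Agent.Helper91.HN.DC
import Pool.Agent.Helper17.HN.LDF
import Pool.Agent.Helper71.HN.COH

/-! # HN: the modules put together -/

namespace Pool.Agent.Helper19.HN

open Ordinal Cardinal ZFSet Order Pool.Agent.Helper73.HODC Pool.Agent.Helper73.HM
open Pool.Agent.Helper73.HE Pool.Agent.Helper73.HU Pool.Agent.Helper73.HX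

theorem m_coh : StCOH := Pool.Agent.Helper71.HN.COH.coh
theorem m_sm : StSM := Pool.Agent.Helper92.HN.SM.sm
theorem m_reg : StREG := Pool.Agent.Helper37.HN.REG.reg
theorem m_ar : StAR := Pool.Agent.Helper33.HN.AR.ar m_coh
theorem m_rk : StRK := Pool.Agent.Helper73.HN.RK.rk
theorem m_dc : StDC := Pool.Agent.Helper91.HN.DC.dc m_rk
theorem m_set : StSET := Pool.Agent.Helper84.HN.SET.set m_rk
theorem m_lur (h : StBND) : StLUR := Pool.Agent.Helper58.HN.LUR.lur m_rk m_dc h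
theorem m_ldf : StLDF := Pool.Agent.Helper17.HN.LDF.ldf
theorem m_nsp : StNSP := Pool.Agent.Helper8.HN.NSP.nsp m_ldf
theorem m_tre : StTRE := Pool.Agent.Helper89.HN.TRE.tre m_nsp m_sm m_reg
theorem m_sdf : StSDF := Pool.Agent.Helper67.HN.SDF.sdf m_ldf
theorem m_lc : StLC := Pool.Agent.Helper57.HN.LC.lc
theorem m_nat : StNAT := Pool.Agent.Helper96.HN.NAT.nat
theorem m_sur : StSUR := Pool.Agent.Helper48.HN.SUR.sur m_sm
theorem m_clb : StCLB := Pool.Agent.Helper80.HN.CLB.clb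
theorem m_enm : StENM := Pool.Agent.Helper7.HN.ENM.enm Pool.Agent.Helper76.HN.HLD.hld
  Pool.Agent.Helper78.HN.HLO.hlo Pool.Agent.Helper6.HN.ENU.enu
theorem m_tv : StTV := Pool.Agent.Helper79.HN.TV.tv
theorem m_ele : StELE := Pool.Agent.Helper4.HN.ELE.ele m_tv
theorem m_hul : StHUL := Pool.Agent.Helper4.HN.ELE.hul
theorem m_cnv : StCNV := Pool.Agent.Helper13.HN.CNV.cnv

end Pool.Agent.Helper19.HN
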