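import Pool.Agent.Helper19.HN.Base

/-! # HN: the statements of the modules -/

namespace Pool.Agent.Helper19.HN

open Ordinal Cardinal ZFSet Order Pool.Agent.Helper73.HODC Pool.Agent.Helper73.HM
open Pool.Agent.Helper73.HE Pool.Agent.Helper73.HU Pool.Agent.Helper73.HX

/-! ### atoms of a regular cardinal -/

/-- COH: definable sequences of subsets cohere -/
def StCOH : Prop := ∀ (c : Cardinal.{0}) (A : Set Ordinal.{0})
  (R : Ordinal.{0} → Ordinal.{0} → Prop), c.IsRegular → Atm c.ord A →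
    DP (fun v => R (v 0).rank (v 1).rank) →
    ∃ X ∈ hodPow c.ord, AE c.ord A (fun i => ∀ d < i, R i d ↔ d ∈ st X)

/-- SM: `c` is a strong limit in HOD -/
def StSM : Prop := ∀ (c : Cardinal.{0}) (A : Set Ordinal.{0}), c.IsRegular → Atm c.ord A →
  ∀ i < c.ord, Few c.ord (hodPow i)

/-- REG: almost all elements of an atom are regular in HOD -/
def StREG : Prop := ∀ (c : Cardinal.{0}) (A : Set Ordinal.{0}), c.IsRegular → Atm c.ord A →
  AE c.ord A HODReg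

/-- AR: an atom is an atom at almost all its reflection points -/
def StAR : Prop := ∀ (κ θ c : Cardinal.{0}) (A : Set Ordinal.{0}), AtomsT κ θ → c.IsRegular →
  θ < c → Atm c.ord A →
    ¬ Stat {ρ | ℵ₀ < ρ.cof ∧ ρ.cof < κ ∧ Stat A ρ ∧ ¬ Atom ρ A} c.ord

/-! ### the wellorder of `hodPow τ` given by an atom -/

/-- RK: the rank function of the order of the ultrapower -/
def StRK : Prop := ∀ (τ : Ordinal.{0}) (A : Set Ordinal.{0}), Atm τ A →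
  ∃ rk : ZFSet.{0} → Ordinal.{0}, ∀ x ∈ hodPow τ, ∀ y ∈ hodPow τ,
    (Prec τ A x y ↔ rk x < rk y) ∧ (rk x = rk y → x = y)

/-- DC: downward closed sets are given by an element of `HOD` -/
def StDC : Prop := ∀ (τ : Ordinal.{0}) (A : Set Ordinal.{0}) (K : ZFSet.{0} → Prop), Atm τ A →
  (∀ x, K x → x ∈ hodPow τ) → (∀ x y, K x → y ∈ hodPow τ → Prec τ A y x → K y) →
    ∃ z, HOD z ∧ ∀ x, K x ↔ Kz τ A z x

/-- BND: regressive functions into an ordered set are bounded on a stationary subset by an element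
with small index -/
def StBND : Prop := ∀ (c : Cardinal.{0}) (D : Set Ordinal.{0}) (f : Ordinal.{0} → Ordinal.{0}),
  c.IsRegular → ℵ₀ < c → ∃ (μ : Cardinal.{0}) (C : Set Ordinal.{0}), Club C c.ord ∧
    ∀ ρ ∈ C, ρ < c.ord → ℵ₀ < ρ.cof → ρ.cof ≠ μ →
      ∀ (S : Set Ordinal.{0}) (r : Ordinal.{0} → Ordinal.{0}), Stat S ρ →
        (∀ i ∈ S, i < ρ → r i < i ∧ r i ∈ D) →
        ∃ k < ρ, k ∈ D ∧ Stat {i | i ∈ S ∧ f (r i) ≤ f k} ρ

/-- SET: the situation in the proof by contradiction -/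
def StSET : Prop := ∀ (c : Cardinal.{0}) (A : Set Ordinal.{0}) (X : Ordinal.{0} → ZFSet.{0}),
  c.IsRegular → Atm c.ord A → Sur c.ord X → Stat {i | i ∈ A ∧ i ∈ BadSet X} c.ord →
    ∃ z y, Setup c.ord A X z y

/-- LUR: the least upper bound reflects -/
def StLUR : Prop := ∀ (c : Cardinal.{0}) (A : Set Ordinal.{0}) (X : Ordinal.{0} → ZFSet.{0})
  (z : ZFSet.{0}) (y : Ordinal.{0} → ZFSet.{0}), c.IsRegular → Atm c.ord A → Sur c.ord X →
    Setup c.ord A X z y → ∃ (μ : Cardinal.{0}) (C : Set Ordinal.{0}), Club C c.ord ∧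
      ∀ ρ ∈ C, ρ < c.ord → ℵ₀ < ρ.cof → ρ.cof ≠ μ → Atom ρ A →
        ∃ w, HOD w ∧ Lub ρ A (Kz ρ A w) y

/-- LDF: properties of a least upper bound are definable -/
def StLDF : Prop := ∀ (τ : Ordinal.{0}) (A : Set Ordinal.{0}) (K : ZFSet.{0} → Prop)
  (U : Ordinal.{0} → ZFSet.{0}) (P : Ordinal.{0} → ZFSet.{0} → (ℕ → ZFSet.{0}) → Prop),
    ℵ₀ < τ.cof → DPs A → DP (fun v => K (v 0)) → Lub τ A K U →
    DP (fun v => P (v 0).rank (v 1) (fun n => v (n + 2))) →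
    DP (fun v => Stat {g | g ∈ A ∧ U g ∈ hodPow g ∧ P g (U g) v} τ)

/-- NSP: the values `y i ∩ ζ` are not eventually constant -/
def StNSP : Prop := ∀ (c : Cardinal.{0}) (A : Set Ordinal.{0}) (X : Ordinal.{0} → ZFSet.{0})
  (z : ZFSet.{0}) (y : Ordinal.{0} → ZFSet.{0}), c.IsRegular → Atm c.ord A → Sur c.ord X →
    Setup c.ord A X z y → ∀ ξ < c.ord, ∀ u,
      Stat {i | i ∈ EE' c.ord A z y ∧ cut (y i) ξ = u} c.ord →
      ∃ ζ < c.ord, ∀ w, Stat {i | (i ∈ EE' c.ord A z y ∧ cut (y i) ξ = u) ∧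
        cut (y i) ζ ≠ w} c.ord

/-- TRE: one ordinal `i₀` below which the sets `Sd` are stationary unboundedly often -/
def StTRE : Prop := ∀ (c : Cardinal.{0}) (A : Set Ordinal.{0}) (X : Ordinal.{0} → ZFSet.{0})
  (z : ZFSet.{0}) (y : Ordinal.{0} → ZFSet.{0}), c.IsRegular → Atm c.ord A → Sur c.ord X →
    Setup c.ord A X z y → ∀ j < c.ord, ∃ i₀, j < i₀ ∧ i₀ < c.ord ∧ i₀ ∈ A ∧ HODReg i₀ ∧
      ∃ u ∈ hodPow i₀, ∀ ξ < i₀, ∃ ξ', ξ ≤ ξ' ∧ ξ' < i₀ ∧ Stat (Sd c.ord A z y u ξ') c.ord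

/-- SDF: the stationarity of the sets `Sd` is definable where `y` is a least upper bound -/
def StSDF : Prop := ∀ (c τ : Ordinal.{0}) (A : Set Ordinal.{0}) (z w u : ZFSet.{0})
  (y : Ordinal.{0} → ZFSet.{0}), ℵ₀ < τ.cof → DPs A → HOD z → HOD w → HOD u →
    Lub τ A (Kz τ A w) y → DP (fun v => Stat (Sd c A z y u (v 0).rank) τ)

/-- LC: a strongly compact cardinal is a strong limit -/
def StLC : Prop := ∀ κ : Cardinal.{0}, StronglyCompact κ → ∀ μ < κ, (2 : Cardinal.{0}) ^ μ < κ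

/-- GD: the contradiction -/
def StGD : Prop := ∀ (κ θ c : Cardinal.{0}) (A : Set Ordinal.{0}) (X : Ordinal.{0} → ZFSet.{0}),
  StronglyCompact κ → κ ≤ θ → AtomsT κ θ → c.IsRegular → θ < c → Atm c.ord A →
    (∀ a ∈ A, a.cof < κ) → Sur c.ord X → ¬ Stat {i | i ∈ A ∧ i ∈ BadSet X} c.ord

/-! ### from atoms to clubs -/

/-- NAT: existence of atoms, strong form -/
def StNAT : Prop := ∀ κ : Cardinal.{0}, StronglyCompact κ → Fl κ →
  ∃ θ : Cardinal.{0}, κ ≤ θ ∧ (Extendible κ → θ = κ) ∧ AtomsT κ θ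

/-- SUR: an enumeration of `hodPow c` -/
def StSUR : Prop := ∀ κ θ c : Cardinal.{0}, AtomsT κ θ → ℵ₀ < κ → κ ≤ θ → c.IsRegular → θ < c →
  ∃ X, Sur c.ord X

/-- CLB: the closed unbounded set -/
def StCLB : Prop := ∀ (κ θ c : Cardinal.{0}) (X : Ordinal.{0} → ZFSet.{0}), StronglyCompact κ →
  κ ≤ θ → AtomsT κ θ → c.IsRegular → θ < c → Sur c.ord X →
    (∀ A, Atm c.ord A → (∀ a ∈ A, a.cof < κ) →
      ¬ Stat {i | i ∈ A ∧ i ∈ BadSet X} c.ord) →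
    ∃ C, Club C c.ord ∧ ∀ g ∈ C, g < c.ord → g ∉ BadSet X

/-! ### the definable wellorder of HOD -/

/-- the restriction of a relation to `V_α` satisfies the recursion for the canonical order: rank,
`key1`, `key2`, and the least difference -/
def HLr (L : ZFSet.{0} → ZFSet.{0} → Prop) (x y : ZFSet.{0}) : Prop :=
  x.rank < y.rank ∨ (x.rank = y.rank ∧ (key1 x < key1 y ∨ (key1 x = key1 y ∧
    (key2 x < key2 y ∨ (key2 x = key2 y ∧
      ∃ z, z ∈ y ∧ z ∉ x ∧ ∀ w, w ∈ x ∨ w ∈ y → L w z → (w ∈ x ↔ w ∈ y))))))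

/-- HLD: the definable order -/
def StHLD : Prop := ∃ L : ZFSet.{0} → ZFSet.{0} → Prop, Dfn (fun v => L (v 0) (v 1)) ∧
  ∀ x y, L x y ↔ HLr L x y

/-- HLO: it is a wellorder of HOD -/
def StHLO : Prop := ∀ L : ZFSet.{0} → ZFSet.{0} → Prop, (∀ x y, L x y ↔ HLr L x y) →
  (∀ x, ¬ L x x) ∧ (∀ x y z, HOD x → HOD y → HOD z → L x y → L y z → L x z) ∧
  (∀ x y, HOD x → HOD y → L x y ∨ x = y ∨ L y x) ∧
  ∀ P : ZFSet.{0} → Prop, (∃ x, HOD x ∧ P x) → ∃ x, HOD x ∧ P x ∧ ∀ y, HOD y → L y x → ¬ P y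

/-- ENU: a definable enumeration of a set with a definable wellorder -/
def StENU : Prop := ∀ (L : ZFSet.{0} → ZFSet.{0} → Prop) (T : ZFSet.{0} → Prop) (η : Ordinal.{0}),
  DP (fun v => L (v 0) (v 1)) → DP (fun v => T (v 0)) → (∀ x, T x → x.rank < η) →
    (∀ x, ¬ L x x) → (∀ x y z, T x → T y → T z → L x y → L y z → L x z) →
    (∀ x y, T x → T y → L x y ∨ x = y ∨ L y x) →
    (∀ P : ZFSet.{0} → Prop, (∃ x, T x ∧ P x) → ∃ x, T x ∧ P x ∧ ∀ y, T y → L y x → ¬ P y) →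
    ∃ (α : Ordinal.{0}) (e : Ordinal.{0} → ZFSet.{0}), DP (fun v => v 0 = e (v 1).rank) ∧
      (∀ a < α, T (e a)) ∧ (∀ a < α, ∀ b < α, a < b → L (e a) (e b)) ∧
      ∀ x, T x → ∃ a < α, e a = x

/-- `D` enumerates the sets in HOD of rank less than `c` -/
structure Enm (c : Ordinal.{0}) (D : Ordinal.{0} → ZFSet.{0}) : Prop where
  dp : DP (fun v => v 0 = D (v 1).rank)
  hod : ∀ a < c, HOD (D a) ∧ (D a).rank < c
  inj : ∀ a < c, ∀ b < c, D a = D b → a = b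
  sur : ∀ x, HOD x → x.rank < c → ∃ a < c, D a = x
  bdd : ∀ i < c, ∃ b < c, ∀ a < c, (D a).rank < i → a < b

/-- ENM: the enumeration of `V_c` of HOD -/
def StENM : Prop := ∀ c : Cardinal.{0}, c.IsRegular → ℵ₀ < c →
  (∀ i < c.ord, Few c.ord (hodPow i)) → ∃ D, Enm c.ord D

/-! ### the embeddings -/

/-- TV: closed unboundedly many elementary substructures (Tarski-Vaught) -/
def StTV : Prop := ∀ (c : Cardinal.{0}) (M : Set ZFSet.{0}) (m : Ordinal.{0} → ZFSet.{0}),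
  c.IsRegular → ℵ₀ < c → (∀ k < c.ord, m k ∈ M) → (∀ x ∈ M, ∃ k < c.ord, m k = x) →
    ∃ C, Club C c.ord ∧ ∀ g ∈ C, g < c.ord → ∀ (φ : Fm) (v : ℕ → ZFSet.{0}),
      (∀ n, ∃ k < g, m k = v n) → (Sat M φ v ↔ Sat {x | ∃ k < g, m k = x} φ v)

/-- ELE: the embeddings -/
def StELE : Prop := ∀ (c : Cardinal.{0}) (X D : Ordinal.{0} → ZFSet.{0}) (C : Set Ordinal.{0}),
  c.IsRegular → ℵ₀ < c → Sur c.ord X → Enm c.ord D → Club C c.ord →
    (∀ g ∈ C, g < c.ord → g ∉ BadSet X) → NonRigid c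

/-- HUL: the enumeration of `V_(c+1)` of HOD and the sets `V_(g+1)` of HOD -/
def StHUL : Prop := ∀ (c : Cardinal.{0}) (X D : Ordinal.{0} → ZFSet.{0}) (C : Set Ordinal.{0}),
  c.IsRegular → ℵ₀ < c → Sur c.ord X → Enm c.ord D → Club C c.ord →
    (∀ g ∈ C, g < c.ord → g ∉ BadSet X) →
    ∃ (m : Ordinal.{0} → ZFSet.{0}) (C' : Set Ordinal.{0}), (∀ k < c.ord, m k ∈ hodV c.ord) ∧
      (∀ x ∈ hodV c.ord, ∃ k < c.ord, m k = x) ∧ Club C' c.ord ∧
      ∀ g ∈ C', g < c.ord → ∀ x ∈ hodV g, ∃ k < g, cut (m k) g = x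

/-- INE: HOD is ineffable at `c` -/
def StINE : Prop := ∀ (c : Cardinal.{0}) (m : Ordinal.{0} → ZFSet.{0}) (C' : Set Ordinal.{0}),
  c.IsRegular → ℵ₀ < c → (∀ k < c.ord, m k ∈ hodV c.ord) → Club C' c.ord →
    (∀ g ∈ C', g < c.ord → ∀ x ∈ hodV g, ∃ k < g, cut (m k) g = x) → Ineff c

/-- INC: the converse -/
def StINC : Prop := ∀ κ c : Cardinal.{0}, ℵ₀ < κ → c.IsRegular → κ < c → Ineff c → Fl κ

/-- CNV: the converse -/
def StCNV : Prop := ∀ (c : Cardinal.{0}) (g : Ordinal.{0}) (i : ZFSet.{0} → ZFSet.{0}),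
  c.IsRegular → ℵ₀ < c → g < c.ord → IsSuccLimit g → HEmb g c.ord i → HODReg g

end Pool.Agent.Helper19.HN
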