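import Pool.Agent.Helper19.HN.Plug
import Pool.Agent.Helper19.HN.BND
import Pool.Agent.Helper19.HN.GD

/-! # HN: the theorem -/

namespace Pool.Agent.Helper19.HN

open Ordinal Cardinal ZFSet Order Pool.Agent.Helper73.HODC Pool.Agent.Helper73.HM
open Pool.Agent.Helper73.HE Pool.Agent.Helper73.HU Pool.Agent.Helper73.HX

theorem m_bnd : StBND := BND.bnd

theorem m_gd : StGD := GD.gd m_set (m_lur m_bnd) m_tre m_sdf m_ar m_lc

theorem top (κ : Cardinal.{0}) (hκ : StronglyCompact κ) : List.TFAE [¬ HODHypothesis,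
      ∃ θ : Cardinal.{0}, (Extendible κ → θ = κ) ∧ ∀ c : Cardinal.{0}, c.IsRegular → θ < c →
        NonRigid c ∧ Ineff c,
      ∃ (c : Cardinal.{0}) (g : Ordinal.{0}) (i : ZFSet.{0} → ZFSet.{0}), c.IsRegular ∧
        IsSuccLimit g ∧ κ.ord ≤ g ∧ g < c.ord ∧ g.cof < κ ∧ HEmb g c.ord i,
      ∃ c : Cardinal.{0}, c.IsRegular ∧ κ < c ∧ WeakIneff c] :=
  equiv m_sm m_nat m_sur m_gd m_clb m_enm m_ele m_hul m_cnv hκ

end Pool.Agent.Helper19.HN
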